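import Pool.Agent.Lib.RAE.Blue

/-! Project ra1, step E, block AL3: the root. -/

open scoped Classical Topology ContDiff ComplexOrder Matrix
open Set MeasureTheory Complex Metric Filter

set_option linter.unusedVariables false

noncomputable section

namespace Pool.Agent.Lib.RAE

open Pool.Agent.Lib.SV (E nsq)
open Pool.Agent.Lib.HS32 Pool.Agent.Lib.PN Pool.Agent.Lib.RA

namespace AL3B

variable {q j : ℕ}

/-- Replace the first coordinates. -/
def rp (c : E q) (w : E (q + j)) : E (q + j) := Fin.append c (sx w)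

theorem cont_rp (c : E q) : Continuous (rp c : E (q + j) → E (q + j)) := by
  refine continuous_pi fun i => ?_
  refine Fin.addCases (fun b => ?_) (fun l => ?_) i
  · simp only [rp, Fin.append_left]; exact continuous_const
  · simp only [rp, Fin.append_right, sx]; exact continuous_apply _

theorem fx_rp (c : E q) (w : E (q + j)) : fx (rp c w) = c := by
  funext b; simp [fx, rp]

theorem rp_mem {a w : E (q + j)} {R : ℝ} {c : E q} (hc : c ∈ ball (fx a) R) (hw : w ∈ ball a R) :
    rp c w ∈ ball a R := by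
  have hR : 0 < R := pos_of_mem_ball hw
  rw [mem_ball, dist_pi_lt_iff hR] at hc hw ⊢
  intro i
  refine Fin.addCases (fun b => ?_) (fun l => ?_) i
  · simpa [rp, fx] using hc b
  · simpa [rp, sx] using hw (Fin.natAdd q l)

theorem rp_sub (c : E q) (w : E (q + j)) : rp c w - w =
    ∑ b, (c b - fx w b) • (Pi.single (Fin.castAdd j b) 1 : E (q + j)) := by
  funext i
  refine Fin.addCases (fun b => ?_) (fun l => ?_) i
  · simp [rp, fx, Finset.sum_apply, Pi.single_apply, Fin.castAdd_inj]
  · have h : ∀ b : Fin q, Fin.natAdd q l ≠ Fin.castAdd j b := fun b h => by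
      have h1 := congrArg Fin.val h
      have h2 := b.isLt
      simp only [Fin.val_natAdd, Fin.val_castAdd] at h1
      omega
    simp [rp, sx, Finset.sum_apply, h]

/-- A function whose derivatives in the first coordinates vanish does not depend on them. -/
theorem const_rp {g : E (q + j) → ℂ} {a w : E (q + j)} {R : ℝ} {c : E q}
    (hg : ∀ z ∈ ball a R, DifferentiableAt ℂ g z ∧ ∀ b, pd g b z = 0)
    (hc : c ∈ ball (fx a) R) (hw : w ∈ ball a R) : g (rp c w) = g w := by
  set v := rp c w - w with hv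
  set L : ℂ → E (q + j) := fun τ => w + τ • v with hL
  have hLd : ∀ τ, HasDerivAt L v τ := fun τ => by
    simpa [hL] using ((hasDerivAt_id τ).smul_const v).const_add w
  have hLc : Continuous L := by rw [hL]; fun_prop
  have hO : IsOpen (L ⁻¹' ball a R) := isOpen_ball.preimage hLc
  have hC : Convex ℝ (L ⁻¹' ball a R) := by
    intro x hx y hy s t hs ht hst
    have e : L (s • x + t • y) = s • L x + t • L y := by
      have h1 : t = 1 - s := by linarith
      subst h1
      funext i
      simp only [hL, Pi.add_apply, Pi.smul_apply, smul_eq_mul, real_smul]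
      push_cast
      ring
    show L _ ∈ ball a R
    rw [e]
    exact convex_ball a R hx hy hs ht hst
  have hd : ∀ τ ∈ L ⁻¹' ball a R, HasDerivAt (fun τ => g (L τ)) 0 τ := fun τ hτ => by
    have h1 := (hg _ hτ).1.hasFDerivAt.comp_hasDerivAt τ (hLd τ)
    have h2 : fderiv ℂ g (L τ) v = 0 := by
      rw [hv, rp_sub, map_sum]
      refine Finset.sum_eq_zero fun b _ => ?_
      have h3 := (hg _ hτ).2 b
      rw [pd] at h3
      rw [map_smul, h3, smul_zero]
    rwa [h2] at h1
  have h := hO.is_const_of_deriv_eq_zero hC.isPreconnected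
    (fun τ hτ => (hd τ hτ).differentiableAt.differentiableWithinAt)
    (fun τ hτ => (hd τ hτ).deriv) (x := 1) (y := 0)
    (by simpa [hL, hv] using rp_mem hc hw) (by simpa [hL] using hw)
  simpa [hL, hv] using h

end AL3B

open AL3B in
theorem st_AL3 : St_AL3 := by
  intro q j m M K _ rep κ e a R c A lam ζ y P Q N p hK he hb hc hA hrel hy hζ hP hdeg hco z hz hp
  obtain ⟨r, hr⟩ := hK.hom
  set π : (M.X → ℂ) →+* Germ (Ff M.X) ℂ := Germ.coeRingHom (Ff M.X) with hπ
  have hr' : ∀ α, r α = π (rep α) := hr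
  have hπe : ∀ f g : M.X → ℂ, π f = π g ↔ f =ᶠ[Ff M.X] g := fun f g => Germ.coe_eq
  have hAd : ∀ α, ∀ w ∈ ball a R, DifferentiableAt ℂ (rep (A α) ∘ e.symm) w := fun α w hw => by
    have h := (hA α w hw).1 e he (e.map_target (hb hw))
    rw [e.right_inv (hb hw)] at h
    exact h.self_of_nhds
  have hyc : ∀ w ∈ ball a R, ContinuousAt y w := fun w hw =>
    hy.continuousAt (isOpen_ball.mem_nhds hw)
  have h1 : (∑ α, rep (A α) * ((∏ b, rep (lam b) ^ (α.1 b).val) * rep ζ ^ α.2.val)) =ᶠ[Ff M.X]
      0 := by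
    rw [← hπe, map_zero, ← map_zero r, ← hrel]
    simp only [map_sum, map_mul, map_prod, map_pow, ← hr']
  have h2 : ∀ w ∈ ball a R,
      ∑ α, rep (A α) (e.symm w) * ((∏ b, fx w b ^ (α.1 b).val) * y w ^ α.2.val) = 0 := by
    intro w hw
    refine eq_of_Gn (f := fun w => ∑ α, rep (A α) (e.symm w) *
      ((∏ b, fx w b ^ (α.1 b).val) * y w ^ α.2.val)) (g := fun _ => (0 : ℂ)) ?_
      continuousAt_const ?_
    · refine tendsto_finset_sum _ fun α _ => ?_
      refine ((hAd α w hw).continuousAt).mul (ContinuousAt.mul ?_ ((hyc w hw).pow _))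
      refine Continuous.continuousAt (continuous_finset_prod _ fun b _ => ?_)
      exact (continuous_apply _).pow _
    · filter_upwards [gn_of_ff (hb hw) h1, hζ w hw] with u h3 h4
      simpa [Finset.sum_apply, Finset.prod_apply, h4.1, h4.2] using h3
  have h3 : ∀ w ∈ ball a R, ∑ α, rep (A α) (e.symm w) * (∏ b, c b ^ (α.1 b).val) *
      y (rp c w) ^ α.2.val = 0 := by
    intro w hw
    rw [← h2 _ (rp_mem hc hw), fx_rp]
    refine Finset.sum_congr rfl fun α _ => ?_
    have h4 := const_rp (g := rep (A α) ∘ e.symm)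
      (fun u hu => ⟨hAd α u hu, (hA α u hu).2⟩) hc hw
    simp only [Function.comp] at h4
    rw [h4, mul_assoc]
  set Y : M.X → ℂ := fun x => y (rp c (e x)) with hY
  set d := P.natDegree with hd
  obtain ⟨g, hg⟩ : ∃ g : M.X → ℂ, π g = Q.eval₂ r (π Y) :=
    Germ.inductionOn (Q.eval₂ r (π Y)) fun g => ⟨g, rfl⟩
  have hκ : ∀ s, r (κ s) = π fun _ => s := fun s => by
    rw [hr', hπe]; exact hK.cst s
  have e1 : P.eval₂ r (π Y) =
      π (∑ i ∈ Finset.range (d + 1), (fun x => (p x).coeff i) * Y ^ i) := by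
    rw [Polynomial.eval₂_eq_sum_range, map_sum]
    refine Finset.sum_congr rfl fun i _ => ?_
    rw [map_mul, map_pow, hr', (hπe _ _).2 (hco i)]
  have e2 : (spc κ A c).eval₂ r (π Y) =
      π (∑ α, rep (A α) * (∏ b, (fun _ => c b) ^ (α.1 b).val) * Y ^ α.2.val) := by
    simp only [spc, Polynomial.eval₂_finset_sum, Polynomial.eval₂_mul, Polynomial.eval₂_C,
      Polynomial.eval₂_X_pow]
    simp only [map_sum, map_mul, map_prod, map_pow, hκ, hr' (A _)]
  have h4 : (∑ i ∈ Finset.range (d + 1), (fun x => (p x).coeff i) * Y ^ i) ^ N =ᶠ[Ff M.X]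
      (∑ α, rep (A α) * (∏ b, (fun _ => c b) ^ (α.1 b).val) * Y ^ α.2.val) * g := by
    rw [← hπe, map_pow, map_mul, ← e1, ← e2, hg, ← Polynomial.eval₂_pow, hP,
      Polynomial.eval₂_mul]
  have h5 : ∑ i ∈ Finset.range (d + 1), (p (e.symm z)).coeff i * y (rp c z) ^ i = 0 := by
    refine eq_of_Gn (f := fun w => ∑ i ∈ Finset.range (d + 1), (p (e.symm w)).coeff i *
      y (rp c w) ^ i) (g := fun _ => (0 : ℂ)) ?_ continuousAt_const ?_
    · refine tendsto_finset_sum _ fun i _ => ?_
      exact ((hp i).comp (e.symm.continuousAt (hb hz))).mul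
        (((hyc _ (rp_mem hc hz)).comp (cont_rp c).continuousAt).pow _)
    · filter_upwards [gn_of_ff (hb hz) h4, Gn_of_nhds (isOpen_ball.mem_nhds hz)] with w h6 hw
      have h7 := h3 w hw
      simp only [Pi.pow_apply, Pi.mul_apply, Finset.sum_apply, Finset.prod_apply, hY,
        e.right_inv (hb hw)] at h6
      rw [h7, zero_mul] at h6
      exact eq_zero_of_pow_eq_zero h6
  rw [Polynomial.eval_eq_sum_range, hdeg]
  exact h5

end Pool.Agent.Lib.RAE
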