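import Pool.Agent.Lib.RAE.Blue
import Pool.Agent.Lib.RA.B_WAD
import Pool.Agent.Lib.RA.B_TV
import Pool.Agent.Lib.RA.B_CH2

/-! The linear system in the adapted chart. -/

open scoped Classical Topology ContDiff ComplexOrder Matrix
open Set MeasureTheory Complex Metric Filter

set_option linter.unusedVariables false

noncomputable section

namespace Pool.Agent.Lib.RAE

open Pool.Agent.Lib.SV (E nsq)
open Pool.Agent.Lib.HS32 Pool.Agent.Lib.PN Pool.Agent.Lib.RA

namespace BXSB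

variable {k j : ℕ}

theorem sum_single (c : E k) :
    ∑ i, c i • (Pi.single (Fin.castAdd j i) 1 : E (k + j)) = Fin.append c 0 := by
  ext l
  refine Fin.addCases (fun a => ?_) (fun a => ?_) l
  · simp [Finset.sum_apply, Pi.single_apply]
  · simp [Finset.sum_apply, Pi.single_apply, Fin.ext_iff]
    exact Finset.sum_eq_zero fun i _ => if_neg (by omega)

theorem app (t : E (k + j)) : Fin.append (fx t) (sx t) = t := by
  ext l
  refine Fin.addCases (fun a => ?_) (fun a => ?_) l <;> simp [fx, sx]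

end BXSB

open BXSB in
theorem st_BXS : St_BXS := by
  intro q k j M ι _ f φ μ x₀ Φ δ c O H σ i₀ ix e a R hp hb hE z hz b
  have ht := hE.sub hz
  have hO := (hE.pt z hz).1
  have hA := hb.adm _ hO
  obtain ⟨h1, -, h2⟩ := KA.at_tgt hE.mem ht
    ((st_WAD st_TV _ k j M φ μ Φ δ c hp.wt hp.an hb.tv).2.1 H _ hA.iso hA.val).2.2
  have hH : HolN (H ∘ e.symm) z := KA.at_tgt hE.mem ht hA.iso.1
  have hs : Function.Surjective (fderiv ℂ (H ∘ e.symm) z) := KA.at_tgt hE.mem ht (hb.sub _ hO)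
  obtain ⟨c1, -, -, -, -, c6, -⟩ := st_CH2 _ _ _ z hH
  obtain ⟨-, t2, -, -, t5, -⟩ := (st_TV k j Φ δ c hb.tv).2.2.2.2.1 _ hA.val
  have hB := isOpen_ball.mem_nhds hz
  simp only [pb] at h1
  generalize hJ : jr (H ∘ e.symm) z = J at h1 c1 c6
  generalize hP : hr (ph0 Φ) (H (e.symm z)) = P at h1 t5
  have dm : ∀ i, dbv (μ i ∘ e.symm) z = (Jᴴ * P) *ᵥ Pi.single (Fin.castAdd j i) 1 := fun i => by
    have e1 : (fun w => ((μ i ∘ e.symm) w : ℂ)) =ᶠ[𝓝 z]
        (fun t => (mu0 Φ t i : ℂ)) ∘ (H ∘ e.symm) :=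
      ((KA.ev_iff' ht).1 hA.mom).mono fun w hw => congrArg ofReal (hw i)
    rw [← Matrix.mulVec_mulVec, ← t5 i]
    funext l
    refine Eq.trans ?_ (((c6 (fun t => (mu0 Φ t i : ℂ)) (ofRealCLM.differentiableAt.comp _
      (differentiableAt_pi.1 t2.differentiableAt i)) l).2).trans
        (Finset.sum_congr rfl fun a _ => mul_comm _ _))
    simp only [dbv, dzb, e1.fderiv_eq]
  have sm : ∀ s : E k, ∑ i, s i • dbv (μ i ∘ e.symm) z = (Jᴴ * P) *ᵥ Fin.append s 0 := fun s => by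
    simp only [dm, ← Matrix.mulVec_smul, ← Matrix.mulVec_sum, sum_single]
  have dl : ∀ a' v, fderiv ℂ ((fun x => af f i₀ x (ix a')) ∘ e.symm) z v = fx v a' := fun a' v => by
    have e1 : (fun x => af f i₀ x (ix a')) ∘ e.symm =ᶠ[𝓝 z] fun w => w (Fin.castAdd j a') :=
      mem_of_superset hB fun w hw => ((hE.pt w hw).2.2.1 a').symm
    rw [e1.fderiv_eq]
    exact DFunLike.congr_fun (hasFDerivAt_apply (𝕜 := ℂ) (Fin.castAdd j a') z).fderiv v
  have ds : ∀ v, sx (J *ᵥ v) = sx v := fun v => funext fun l => by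
    have e1 : (fun w => (H ∘ e.symm) w (Fin.natAdd k l)) =ᶠ[𝓝 z] fun w => w (Fin.natAdd q l) :=
      mem_of_superset hB fun w hw => (congrFun (hE.pt w hw).2.2.2 l).symm
    have e2 := (hasFDerivAt_pi'.1 hH.self_of_nhds.hasFDerivAt (Fin.natAdd k l)).congr_of_eventuallyEq
      e1.symm
    rw [← c1]
    exact DFunLike.congr_fun (e2.unique (hasFDerivAt_apply (𝕜 := ℂ) (Fin.natAdd q l) z)) v
  have s0 : ∀ {m : ℕ} (s : E m), sx (Fin.append s 0 : E (m + j)) = 0 := fun s => funext fun l => by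
    simp [sx]
  have f0 : ∀ {m : ℕ} (s : E m), fx (Fin.append s 0 : E (m + j)) = s := fun s => funext fun l => by
    simp [fx]
  refine ⟨⟨fx (J *ᵥ Pi.single (Fin.castAdd j b) 1), ?_, fun a' => ?_⟩, fun v s ⟨g1, g2⟩ => ?_⟩
  · have e1 : sx (J *ᵥ Pi.single (Fin.castAdd j b) 1) = 0 := by
      rw [ds]
      funext l
      exact Pi.single_eq_of_ne (Fin.ne_of_val_ne (by simp; omega)) _
    rw [sm, ← e1, app, h1, Matrix.mulVec_mulVec]
  · rw [dl]
    simp [fx, Pi.single_apply]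
  · obtain ⟨u, hu⟩ := hs (J *ᵥ v - Fin.append s 0)
    have e1 : J *ᵥ v = Fin.append s 0 := by
      rw [← sub_eq_zero, ← hu, ← h2, h1, ← Matrix.mulVec_mulVec, ← c1, hu, Matrix.mulVec_sub,
        Matrix.mulVec_mulVec, ← h1, g1, sm, sub_self]
    have e2 : v = 0 := by
      have e3 : fx v = 0 := funext fun a' => (dl a' v).symm.trans (g2 a')
      rw [← app v, e3, ← ds, e1, s0]
      exact funext fun l => Fin.addCases (fun a => by simp) (fun a => by simp) l
    exact ⟨e2, by rw [← f0 s, ← e1, e2, Matrix.mulVec_zero]; rfl⟩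

end Pool.Agent.Lib.RAE
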