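import Pool.Agent.Lib.RAE.Blue
import Pool.Agent.Lib.RA.B_MER

/-! Project ra1, step E: the derivations. -/

open scoped Classical Topology ContDiff ComplexOrder Matrix
open Set MeasureTheory Complex Metric Filter

noncomputable section

namespace Pool.Agent.Lib.RAE

open Pool.Agent.Lib.SV (E nsq)
open Pool.Agent.Lib.HS32 Pool.Agent.Lib.PN Pool.Agent.Lib.RA

namespace DK27

variable {q j : ℕ} {M : Mf (q + j)} {e : M.Ch} {z : E (q + j)}

theorem pd_gn {g g' : M.X → ℂ} (hz : z ∈ e.target) (h : g =ᶠ[Ff M.X] g') (b : Fin q) :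
    ∀ᶠ w in Gn z, pd (g ∘ e.symm) b w = pd (g' ∘ e.symm) b w := by
  filter_upwards [Gn_nhds (gn_of_ff hz h)] with w hw
  unfold pd
  rw [EventuallyEq.fderiv_eq (f₁ := g ∘ e.symm) (f := g' ∘ e.symm) hw]

theorem df_gn {g : M.X → ℂ} (he : e ∈ M.C) (hz : z ∈ e.target) (h : Mer M g) :
    ∀ᶠ w in Gn z, DifferentiableAt ℂ (g ∘ e.symm) w := by
  filter_upwards [(gn_ch' hz).1 (M86.cot_gn (M86.mer_reg h) _),
    Gn_of_nhds (e.open_target.mem_nhds hz)] with w h1 h2
  exact (KA.at_tgt he h2 h1).self_of_nhds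

end DK27

open DK27 in
theorem st_DK27 : St_DK := by
  intro q j M K _ rep κ e a R hm he r0 hs
  have ha := hs (mem_ball_self r0)
  refine ⟨fun h => ?_, fun D hD b α h0 g hg z hz hh => ?_⟩
  · choose g' m' e' using fun b α => h b (rep α) (hm.mer α)
    choose D hD using fun b α => hm.sur _ (m' b α)
    have ch : ∀ b α, ∀ z ∈ ball a R, ∀ᶠ w in Gn z,
        rep (D b α) (e.symm w) = pd (rep α ∘ e.symm) b w := fun b α z hz => by
      filter_upwards [gn_of_ff (hs hz) (hD b α), e' b α z hz] with w h1 h2 using h1.trans h2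
    have c := fun b α => ch b α a (mem_ball_self r0)
    have d := fun α => df_gn he ha (hm.mer α)
    refine ⟨D, fun b α β => hm.inj _ _ (e.symm a) ((gn_ch' ha).2 ?_),
      fun b α β => hm.inj _ _ (e.symm a) ((gn_ch' ha).2 ?_),
      fun b s => hm.inj _ _ (e.symm a) ((gn_ch' ha).2 ?_), ch⟩
    · filter_upwards [c b (α + β), c b α, c b β, d α, d β, pd_gn ha (hm.add α β) b,
        gn_of_ff ha (hm.add (D b α) (D b β))] with w h1 h2 h3 h4 h5 h6 h7
      rw [h1, h7, h2, h3, h6]
      exact congrArg (fun L : E (q + j) →L[ℂ] ℂ => L _) (fderiv_add h4 h5)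
    · filter_upwards [c b (α * β), c b α, c b β, d α, d β, pd_gn ha (hm.mul α β) b,
        gn_of_ff ha (hm.add (α * D b β) (D b α * β)), gn_of_ff ha (hm.mul α (D b β)),
        gn_of_ff ha (hm.mul (D b α) β)] with w h1 h2 h3 h4 h5 h6 h7 h8 h9
      rw [h1, h7, h8, h9, h2, h3, h6]
      refine (congrArg (fun L : E (q + j) →L[ℂ] ℂ => L _) (fderiv_mul h4 h5)).trans ?_
      simp [pd, mul_comm]
    · filter_upwards [c b (κ s), pd_gn ha (hm.cst s) b, gn_of_ff ha (hm.cst 0)] with w h1 h2 h3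
      rw [map_zero] at h3
      rw [h1, h2, h3]
      simp [pd, Function.comp_def]
  · have t := hs hz
    have u := KA.at_tgt he t hh
    refine eq_of_Gn (f := pd (g ∘ e.symm) b) (g := fun _ => 0) ?_ continuousAt_const ?_
    · exact ((ANB.analyticAt u).fderiv.continuousAt.clm_apply continuousAt_const)
    · filter_upwards [hD.ch b α z hz, pd_gn t hg b, gn_of_ff t (hm.cst 0)] with w h1 h2 h3
      rw [map_zero] at h3
      rw [h2, ← h1, h0, h3]

end Pool.Agent.Lib.RAE
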