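import Pool.Agent.Lib.RAE.Blue
import Pool.Agent.Lib.RAB.B_KPE
import Pool.Agent.Lib.RA.B_X0
import Pool.Agent.Lib.RA.B_PZ

/-! Project ra1, step E, row LOCQ: the first half of the system is holomorphic. -/

open scoped Classical Topology ContDiff ComplexOrder Matrix
open Set Complex Metric Filter

set_option linter.unusedVariables false

noncomputable section

namespace Pool.Agent.Lib.RAE

open Pool.Agent.Lib.SV (E)
open Pool.Agent.Lib.HS32 Pool.Agent.Lib.RA

theorem LOCQB.gen {n r : ℕ} {T : E n → Mat n} {c y z : E n} {R : ℝ}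
    (h : ∀ z ∈ ball c R, ∀ i j, AnalyticAt ℝ (fun w => T w i j) z) (hy : y ∈ ball c R)
    (hr : r ≤ (T y).rank) (hz : z ∈ ball c R) : ∀ᶠ w in Gn z, r ≤ (T w).rank := by
  refine ev_Gn.2 ((isOpen_ball.eventually_mem hz).mono fun u hu => ?_)
  refine (((RK.ae_le isOpen_ball (convex_ball _ _).isPreconnected h hy hr).2 u hu).and_eventually
    (isOpen_ball.eventually_mem hu)).mono fun w a => RK.ev_le ?_ a.1
  exact continuousAt_pi.2 fun i => continuousAt_pi.2 fun j => (h w a.2 i j).continuousAt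

theorem st_LOCQ (hP : St_PBX) : St_LOCQ := by
  intro n k r M G φ μ hS hH hK e he c hc
  obtain ⟨⟨R, Φ, hs, pb⟩, h2⟩ := (hP n r M G φ hS hH e he).imp_left fun h => h c hc
  choose m km em using fun i => (h2 c R Φ pb.r0 hs pb.plz).2 (μ i) fun z _ => hK.kp i _
  obtain ⟨z₀, r0, b0⟩ := ((pb.den c (mem_ball_self pb.r0)).and_eventually
    (ball_mem_nhds c pb.r0)).exists
  have b0 : z₀ ∈ ball c R := b0
  obtain ⟨⟨-, -, p3, -⟩, p6, -⟩ := st_PZ n Φ c R pb.plz.hol
  have g1 := fun z hz => (p6 _ pb.plz z hz).2.1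
  have g2 := fun i z hz => ((st_PZ n (m i) c R (km i).hol).2.1 (μ i ∘ e.symm)
    ⟨(km i).hol, em i⟩ z hz).2.2.2
  have mem : ∀ z ∈ ball c R, ∀ z' ∈ ball c R, (z, star z') ∈ ball (dg c) R := fun z hz z' hz' =>
    PK.mk_mem_ball.2 ⟨hz, PK.star_mem_ball.2 hz'⟩
  have sl : ∀ {F : Type} [NormedAddCommGroup F] [NormedSpace ℂ F] {g : E n × E n → F},
      DifferentiableOn ℂ g (ball (dg c) R) →
        DifferentiableOn ℂ (fun z => g (z, star z₀)) (ball c R) := fun h =>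
    h.comp (differentiableOn_id.prodMk (differentiableOn_const _)) fun z hz => mem z hz z₀ b0
  obtain ⟨-, k2, k3⟩ := st_KPE n r Φ c R pb.hf
  have k1 := (st_KPE n r Φ c R pb.hf).1
  refine ⟨R, pb.r0, hs, fun z => Gm Φ (z, star z₀), fun i z => pu (m i) (z, star z₀),
    fun i l => sl (p3 i l), fun i => sl (st_PZ n (m i) c R (km i).hol).1.2.1, fun z₁ h1 => ?_⟩
  filter_upwards [LOCQB.gen (fun z hz => KA.an_hr (p6 _ pb.plz z hz).1) b0 r0.ge h1,
    LOCQB.gen (T := fun z => Gm Φ (z, star z₀)) (r := r)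
      (fun z hz i l => KA.an_of_hol (KA.holN_of_on isOpen_ball (sl (p3 i l)) hz)) b0
      (r0.ge.trans_eq (congrArg Matrix.rank (g1 z₀ b0))) h1,
    Gn_of_nhds (isOpen_ball.eventually_mem h1)] with z a1 a2 hz v s
  rw [g1 z hz] at a1
  choose V _ hV using fun i => k3 _ (km i) _ (mem z hz z hz) ((k1 _ (mem z hz z hz)).antisymm a1)
  have e1 : ∀ z' ∈ ball c R, (Gm Φ (z, star z') *ᵥ v = ∑ i, s i • pu (m i) (z, star z') ↔
      (1 * Gm Φ (z, star z')) *ᵥ (v - ∑ i, s i • V i z) = 0) := fun z' hz' => by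
    simp only [one_mul, Matrix.mulVec_sub, Matrix.mulVec_sum, Matrix.mulVec_smul, sub_eq_zero,
      fun i => (hV i).self_of_nhds _ (PK.star_mem_ball.2 hz')]
  simp only [KA.hw_eq, g1 z hz, fun i => g2 i z hz]
  refine (e1 z hz).trans (Iff.trans ⟨fun h => ?_, fun h => ?_⟩ (e1 z₀ b0).symm)
  · rw [one_mul]
    exact k2 n 1 _ (mem z hz z hz) (by rwa [one_mul]) _ h _ (PK.star_mem_ball.2 b0)
  · rw [one_mul]
    exact k2 n 1 _ (mem z hz z₀ b0) (by rwa [one_mul]) _ h _ (PK.star_mem_ball.2 hz)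

end Pool.Agent.Lib.RAE
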