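import Pool.Agent.Lib.RAE.Blue
import Pool.Agent.Lib.RA.B_MER

/-! Project ra1, step E, row MRG: meromorphic functions up to generic equality. -/

open scoped Classical Topology ContDiff ComplexOrder Matrix
open Set MeasureTheory Complex Metric Filter

set_option linter.unusedVariables false

noncomputable section

namespace Pool.Agent.Lib.RAE

open Pool.Agent.Lib.SV (E nsq)
open Pool.Agent.Lib.HS32 Pool.Agent.Lib.PN Pool.Agent.Lib.RA

namespace MRGB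

variable {n : ℕ} {M : Mf n} {g a b : M.X → ℂ} {x : M.X}

/-- The generic limit of a local fraction. -/
theorem lim_eq (ha : HolAt M a x) (hb : HolAt M b x) (h : ∀ᶠ y in Gn x, g y = a y / b y) :
    ∀ᶠ y in 𝓝 x, b y ≠ 0 → limUnder (Gn y) g = a y / b y := by
  filter_upwards [ha.near, hb.near, Gn_near h] with y h1 h2 h3 h0
  have h4 : Tendsto (fun z => a z / b z) (Gn y) (𝓝 (a y / b y)) :=
    (h1.div h2 h0).cont.tendsto.mono_left inf_le_left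
  exact (h4.congr' (h3.mono fun z hz => hz.symm)).limUnder_eq

theorem fix (h : ∀ x, ∃ a b : M.X → ℂ, HolAt M a x ∧ HolAt M b x ∧ (∃ᶠ y in 𝓝 x, b y ≠ 0) ∧
    ∀ᶠ y in Gn x, g y = a y / b y) : ∃ g', Mer M g' ∧ g' =ᶠ[Ff M.X] g := by
  refine ⟨fun y => limUnder (Gn y) g, M86.mer_of_near fun x => ?_, Ff_of_Gn fun x => ?_⟩
  · obtain ⟨a, b, h1, h2, h3, h4⟩ := h x
    exact ⟨a, b, h1, h2, h3, lim_eq h1 h2 h4⟩
  · obtain ⟨a, b, h1, h2, h3, h4⟩ := h x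
    filter_upwards [Gn_of_nhds (lim_eq h1 h2 h4), h2.ne_Gn h3, h4] with y h5 h6 h7
    rw [h7]
    exact h5 h6

theorem ne_gn [M.Cpt] (hg : Mer M g) (h0 : ¬(∀ᶠ y in Ff M.X, g y = 0)) (x : M.X) :
    ∀ᶠ y in Gn x, g y ≠ 0 := by
  obtain ⟨O, δ, a, h1, h2, h3, h4⟩ := hg x
  have h5 : ∃ᶠ y in 𝓝 x, a y ≠ 0 := fun h5 => by
    refine h0 (Ff_of_Gn (M86.mer_zero (x := x) hg ?_))
    filter_upwards [Gn_of_nhds h5, M86.dv_gn h2 h1] with w h6 h7
    rw [h4 w h7.1 h7.2, not_not.1 h6, zero_div]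
  filter_upwards [(h3 x h1).ne_Gn h5, M86.dv_gn h2 h1] with w h6 h7
  rw [h4 w h7.1 h7.2]
  exact div_ne_zero h6 h7.2

end MRGB

theorem st_MRG : St_MRG := fun n M => by
  refine ⟨fun W h => Ff_of_Gn (M86.cot_gn h), fun g hg =>
    ⟨Ff_of_Gn (M86.cot_gn (M86.mer_reg hg)), fun x => ?_⟩, fun g h => MRGB.fix h,
    fun hc g hg => ⟨fun x h0 => Ff_of_Gn (M86.mer_zero hg h0), fun h0 =>
      ⟨_, M86.mer_inv hg, Ff_of_Gn fun x =>
        (MRGB.ne_gn hg h0 x).mono fun y hy => mul_inv_cancel₀ hy⟩⟩⟩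
  obtain ⟨O, δ, a, h1, h2, h3, h4⟩ := hg x
  exact ⟨a, δ, h3 x h1, h2.hol x h1, h2.ne x h1,
    Eventually.mono (h2.op.mem_nhds h1) fun y hy => h4 y hy⟩

end Pool.Agent.Lib.RAE
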