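import Pool.Agent.Lib.RAE.Blue

/-! Project ra1, step E: the solution of the system is a meromorphic vector field. -/

open scoped Classical Topology ContDiff ComplexOrder Matrix
open Set Complex Metric Filter

set_option linter.unusedVariables false

noncomputable section

namespace Pool.Agent.Lib.RAE

open Pool.Agent.Lib.SV (E)
open Pool.Agent.Lib.HS32 Pool.Agent.Lib.RA

namespace VECB

variable {n k q r : ℕ}

theorem ne_Gn {δ : E n → ℂ} {c y z : E n} {R : ℝ} (h : DifferentiableOn ℂ δ (ball c R))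
    (hy : y ∈ ball c R) (h0 : δ y ≠ 0) (hz : z ∈ ball c R) : ∀ᶠ w in Gn z, δ w ≠ 0 := by
  have ha : ∀ w ∈ ball c R, AnalyticAt ℝ δ w := fun w hw =>
    KA.an_of_hol (KA.holN_of_on isOpen_ball h hw)
  refine ev_Gn.2 (mem_of_superset (isOpen_ball.mem_nhds hz) fun x hx => by_contra fun hc => h0 ?_)
  refine KA.eq_ball ha (fun _ _ => analyticAt_const) hx ?_ hy
  filter_upwards [not_frequently.1 hc, isOpen_ball.mem_nhds hx] with u a b
  exact by_contra fun d => a ((ha u b).continuousAt.eventually_ne d)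

theorem diff_fd {α : E n → ℂ} {w : E n} (h : HolN α w) (v : E n) :
    DifferentiableAt ℂ (fun u => fderiv ℂ α u v) w :=
  (((ContinuousLinearMap.apply ℂ ℂ v).analyticAt _).comp (ANB.analyticAt h).fderiv).differentiableAt

theorem clm_sum (L : E n →L[ℂ] ℂ) (v : E n) : L v = ∑ j, L (Pi.single j 1) * v j := by
  conv_lhs => rw [pi_eq_sum_univ' v]
  simp [mul_comm]

theorem fd_quot {α δ l : E n → ℂ} {w : E n} (hα : DifferentiableAt ℂ α w)
    (hδ : DifferentiableAt ℂ δ w) (h0 : δ w ≠ 0) (e : ∀ᶠ u in 𝓝 w, l u = α u / δ u) (v : E n)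
    (β : ℂ) : fderiv ℂ l w v = β ↔ ∑ j, (δ w * fderiv ℂ α w (Pi.single j 1) -
      α w * fderiv ℂ δ w (Pi.single j 1)) * v j = δ w ^ 2 * β := by
  have h1 := (hα.hasFDerivAt.mul ((hasDerivAt_inv h0).comp_hasFDerivAt w
    hδ.hasFDerivAt)).congr_of_eventuallyEq (f₁ := l) (e.mono fun u hu => hu.trans (div_eq_mul_inv _ _))
  have h2 : fderiv ℂ l w v = (δ w * fderiv ℂ α w v - α w * fderiv ℂ δ w v) / δ w ^ 2 := by
    rw [h1.fderiv]
    simp
    field_simp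
    ring
  simp only [sub_mul, mul_assoc, Finset.sum_sub_distrib, ← Finset.mul_sum, ← clm_sum]
  rw [h2, div_eq_iff (pow_ne_zero 2 h0), mul_comm β]

variable {M : Mf n} {G : M.Fam (Mat n)} {φ : M.Fam ℝ} {μ : Fin k → M.X → ℝ} {l : Fin q → M.X → ℂ}
  {b : E q} {e : M.Ch} {c : E n}

/-- The system is holomorphic at generic points of a small ball. -/
theorem sys (hL : St_LOCQ) (hS : Su M G φ r) (hH : HF M φ r) (hK : Kf M φ r μ)
    (hl : ∀ a, Mer M (l a)) (he : e ∈ M.C) (hc : c ∈ e.target) :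
    ∃ R > 0, ∃ (A : E n → Matrix (Fin n ⊕ Fin q) (Fin n ⊕ Fin k) ℂ) (d : Fin q → E n → ℂ),
      (∀ i j, DifferentiableOn ℂ (fun z => A z i j) (ball c R)) ∧
      (∀ a, DifferentiableOn ℂ (d a) (ball c R)) ∧ ∀ z ∈ ball c R, ∀ᶠ w in Gn z, ∀ β v s,
        Sy M φ μ l e w β v s ↔ A w *ᵥ Sum.elim v s = Sum.elim (0 : E n) fun a => d a w * β a := by
  obtain ⟨R₁, h1, hs, A, B, hA, hB, hAB⟩ := hL n k r M G φ μ hS hH hK e he c hc
  choose O δ α hO hD hα hq using fun a => hl a (e.symm c)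
  obtain ⟨R, h0, hR⟩ := Metric.eventually_nhds_iff_ball.1 ((isOpen_ball.eventually_mem
    (mem_ball_self h1)).and (eventually_all.2 fun a =>
      (KA.ev_iff' hc).1 ((hD a).op.eventually_mem (hO a))))
  have nδ : ∀ a, ∀ w ∈ ball c R, HolN (δ a ∘ e.symm) w := fun a w hw =>
    KA.at_tgt he (hs (hR w hw).1) ((hD a).hol _ ((hR w hw).2 a))
  have nα : ∀ a, ∀ w ∈ ball c R, HolN (α a ∘ e.symm) w := fun a w hw =>
    KA.at_tgt he (hs (hR w hw).1) (hα a _ ((hR w hw).2 a))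
  refine ⟨R, h0, fun w => Matrix.fromBlocks (A w) (Matrix.of fun i j => -B j w i)
    (Matrix.of fun a j => (δ a ∘ e.symm) w * fderiv ℂ (α a ∘ e.symm) w (Pi.single j 1) -
      (α a ∘ e.symm) w * fderiv ℂ (δ a ∘ e.symm) w (Pi.single j 1)) 0,
    fun a w => (δ a ∘ e.symm) w ^ 2, ?_,
    fun a w hw => ((nδ a w hw).self_of_nhds.pow 2).differentiableWithinAt, fun z hz => ?_⟩
  · rintro (i | a) (j | j)
    · exact (hA i j).mono fun w hw => (hR w hw).1
    · exact ((differentiableOn_pi.1 (hB j) i).mono fun w hw => (hR w hw).1).neg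
    · exact fun w hw => (((nδ a w hw).self_of_nhds.mul (diff_fd (nα a w hw) _)).sub
        ((nα a w hw).self_of_nhds.mul (diff_fd (nδ a w hw) _))).differentiableWithinAt
    · exact differentiableOn_const 0
  filter_upwards [hAB z (hR z hz).1, Gn_of_nhds (isOpen_ball.eventually_mem hz),
    eventually_all.2 fun a => (gn_ch' (hs (hR z hz).1)).1 (((hD a).hol _ ((hR z hz).2 a)).ne_Gn
      ((hD a).ne _ ((hR z hz).2 a)))] with w a1 a2 a3 β v s
  rw [Matrix.fromBlocks_mulVec, Sum.elim_comp_inl, Sum.elim_comp_inr, Sum.elim_eq_iff, Sy, a1,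
    Matrix.zero_mulVec, add_zero, add_eq_zero_iff_eq_neg, funext_iff (g := fun a => _ * β a)]
  refine and_congr (Eq.congr_right ?_) (forall_congr' fun a => fd_quot (nα a w a2).self_of_nhds
    (nδ a w a2).self_of_nhds (a3 a) ?_ v _)
  · ext i
    simp [Matrix.mulVec, dotProduct, mul_comm]
  · filter_upwards [isOpen_ball.mem_nhds a2,
      (nδ a w a2).self_of_nhds.continuousAt.eventually_ne (a3 a)] with u b1 b2
    exact hq a _ ((hR u b1).2 a) b2

/-- Propagation on a small ball. -/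
theorem loc (hL : St_LOCQ) (hQ : St_LINQ) (hS : Su M G φ r) (hH : HF M φ r) (hK : Kf M φ r μ)
    (hl : ∀ a, Mer M (l a)) (he : e ∈ M.C) (hc : c ∈ e.target) :
    ∀ᶠ z in 𝓝 c, (∀ᶠ w in Gn z, ∃ v, Gd M φ μ l e w b v) →
      ∃ (δ : E n → ℂ) (Ξ : E n → E n), HolN δ c ∧ HolN Ξ c ∧ (∃ᶠ w in 𝓝 c, δ w ≠ 0) ∧
        ∀ᶠ w in Gn c, Gd M φ μ l e w b ((δ w)⁻¹ • Ξ w) := by
  obtain ⟨R, h0, A, d, hA, hd, h⟩ := sys hL hS hH hK hl he hc
  filter_upwards [ball_mem_nhds c h0] with z hz hg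
  obtain ⟨y, h1, hy⟩ := ((Gn_freq (hg.and (h z hz))).and_eventually
    (isOpen_ball.mem_nhds hz)).exists
  obtain ⟨δ, Y, h2, h3, h4, h5⟩ := hQ n _ _ c R A (fun w => Sum.elim (0 : E n) fun a => d a w * b a) y hA
    (differentiableOn_pi.2 (by
      rintro (i | a)
      exacts [differentiableOn_const 0, (hd a).mul_const _])) hy
    (fun w hw => by
      obtain ⟨⟨v, -, h2⟩, h3⟩ := h1.self_of_nhds
      obtain ⟨a, b⟩ := h2 (w ∘ Sum.inl) (w ∘ Sum.inr) ((h3 _ _ _).2 (by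
        rw [Sum.elim_comp_inl_inr, hw]
        ext (i | a) <;> simp))
      rw [← Sum.elim_comp_inl_inr w, a, b, Sum.elim_zero_zero])
    (h1.mono fun w ⟨⟨v, ⟨s, h2⟩, _⟩, h3⟩ => ⟨_, (h3 _ _ _).1 h2⟩)
  have hc' := mem_ball_self (x := c) h0
  have h6 := ne_Gn h2 hy h4 hc'
  refine ⟨δ, fun w => Y w ∘ Sum.inl, KA.holN_of_on isOpen_ball h2 hc', KA.holN_of_on isOpen_ball
    (differentiableOn_pi.2 fun i => differentiableOn_pi.1 h3 (Sum.inl i)) hc', freq_of_Gn h6, ?_⟩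
  filter_upwards [h6, h c hc', Gn_of_nhds (isOpen_ball.eventually_mem hc')] with w a1 a2 a3
  refine ⟨⟨(δ w)⁻¹ • Y w ∘ Sum.inr, (a2 _ _ _).2 ?_⟩, fun v s hs => ?_⟩
  · rw [show Sum.elim ((δ w)⁻¹ • Y w ∘ Sum.inl) ((δ w)⁻¹ • Y w ∘ Sum.inr) = (δ w)⁻¹ • Y w from
      Sum.elim_comp_inl_inr ((δ w)⁻¹ • Y w), Matrix.mulVec_smul, (h5 w a3).1, inv_smul_smul₀ a1]
  · exact Sum.elim_eq_iff.1 (((h5 w a3).2 a1 _ (((a2 _ _ _).1 hs).trans
      (by ext (i | a) <;> simp))).trans Sum.elim_zero_zero.symm)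

end VECB

open VECB in
theorem st_VEC (hL : St_LOCQ) (hQ : St_LINQ) (hM : St_MRG) (hY : St_SYC) : St_VEC := by
  intro n k q r M _ G φ μ l b hS hH hK hl ⟨e₀, he₀, z₀, hz₀, h₀⟩
  have tr : ∀ e ∈ M.C, ∀ z ∈ e.target, (∀ᶠ y in Gn (e.symm z),
      At M y fun e w => ∃ v, Gd M φ μ l e w b v) ↔ ∀ᶠ w in Gn z, ∃ v, Gd M φ μ l e w b v := by
    intro e he z hz
    rw [gn_ch' hz]
    refine eventually_congr ?_
    filter_upwards [Gn_of_nhds (e.open_target.eventually_mem hz),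
      gn_of_ff hz (eventually_all.2 fun a => ((hM n M).2.1 _ (hl a)).1)] with w h1 h2
    refine ⟨KA.at_tgt he h1, fun ⟨v, hv⟩ e' he' hx' => ⟨_, ((hY n k q M φ μ l b).2 e' he' e he _ hx'
      (e.map_target h1)).2 hS.wt (fun i => KA.smAt_of_an (hK.kp i _).1) h2 v ?_⟩⟩
    rwa [e.right_inv h1]
  have hc : IsClopen {x | ∀ᶠ y in Gn x, At M y fun e w => ∃ v, Gd M φ μ l e w b v} := by
    refine ⟨isClosed_of_closure_subset fun x hx => ?_, isOpen_iff_mem_nhds.2 fun x hx => Gn_near hx⟩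
    obtain ⟨z, ⟨h1, h2⟩, h3⟩ := ((((fr_ch (Mf.mem_ch x)).1
      (mem_closure_iff_frequently.1 hx)).and_eventually ((M.ch x).open_target.eventually_mem
        (Mf.ch_tgt x))).and_eventually
          (loc (b := b) hL hQ hS hH hK hl (Mf.ch_mem x) (Mf.ch_tgt x))).exists
    obtain ⟨δ, Ξ, -, -, -, h4⟩ := h3 ((tr _ (Mf.ch_mem x) z h2).1 h1)
    have := (tr _ (Mf.ch_mem x) _ (Mf.ch_tgt x)).2 (h4.mono fun w hw => ⟨_, hw⟩)
    rwa [Mf.ch_symm] at this
  exact fun e he z hz => (loc hL hQ hS hH hK hl he hz).self_of_nhds ((tr e he z hz).1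
    (eq_univ_iff_forall.1 (hc.eq_univ ⟨_, (tr e₀ he₀ z₀ hz₀).2 (Gn_of_nhds h₀)⟩) _))

end Pool.Agent.Lib.RAE
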