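import Pool.Agent.Lib.RAE.Blue
import Pool.Agent.Lib.RA.B_GIBP

/-! Block ATK: integration on branches. -/

open scoped Classical Topology ContDiff ComplexOrder Matrix
open Set MeasureTheory Complex Metric Filter

set_option linter.unusedVariables false

noncomputable section

namespace Pool.Agent.Lib.RAE

open Pool.Agent.Lib.SV (E nsq)
open Pool.Agent.Lib.HS32 Pool.Agent.Lib.RA

theorem st_ATK : St_ATK := by
  intro n k j m N M hM G Q K K' O H χ hG hT
  have hint := (mMU n M G hG).2.2.2.2.1
  have z0 : ∀ i x, x ∉ O i → χ i x = 0 := fun i x hx => (G55.off (hT.supp i) hx).self_of_nhds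
  have p1 : ∀ i (p : M.X → ℝ), (∀ x ∈ O i, ContinuousAt p x) →
      Integrable (fun x => χ i x * p x) (M.mu G) := fun i p hp =>
    hint ℝ _ (continuous_iff_continuousAt.2 fun x => by
      by_cases hx : x ∈ O i
      · exact (hT.sm i).continuous.continuousAt.mul (hp x hx)
      · refine (continuousAt_const (y := (0 : ℝ))).congr ?_
        filter_upwards [G55.off (hT.supp i) hx] with y hy
        rw [hy, zero_mul])
  have le : ∀ i x (a b : ℝ), (x ∈ O i → a ≤ b) → χ i x * a ≤ χ i x * b := fun i x a b h => by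
    by_cases hx : x ∈ O i
    · exact mul_le_mul_of_nonneg_left (h hx) (hT.nn i x)
    · rw [z0 i x hx, zero_mul, zero_mul]
  refine ⟨p1, fun p p' h => Finset.sum_le_sum fun i _ => integral_mono
    (p1 i _ fun x hx => (h i x hx).1) (p1 i _ fun x hx => (h i x hx).2.1)
    fun x => le i x _ _ fun hx => (h i x hx).2.2, fun p F hF h0 h => ?_,
    fun p H₀ p₀ B hB h h0 => ?_, fun A u w hA h hc => ?_⟩
  · rw [← integral_finsetSum _ fun i _ => p1 i _ fun x hx => (h i x hx).1, ← integral_const_mul]
    refine integral_mono (integrable_finsetSum _ fun i _ => p1 i _ fun x hx => (h i x hx).1)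
      ((hint ℝ F hF).const_mul _) fun x => ?_
    refine (Finset.sum_le_sum fun i _ => le i x _ (F x) fun hx => (h i x hx).2).trans ?_
    rw [← Finset.sum_mul]
    exact mul_le_mul_of_nonneg_right (hT.mult x) (h0 x)
  · have i1 := fun i (_ : i ∈ Finset.univ) => p1 i _ fun x hx => (h i x hx).1
    have n1 : ∀ i x, 0 ≤ χ i x * p i x := fun i x => by
      simpa using le i x 0 _ fun hx => (h i x hx).2
    rw [← integral_finsetSum _ i1]
    refine (integral_mono_of_nonneg (ae_restrict_of_forall_mem hB fun x hx => (h0 x hx).1)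
      (integrable_finsetSum _ i1).integrableOn (ae_restrict_of_forall_mem hB fun x hx => ?_)).trans
      (setIntegral_le_integral (integrable_finsetSum _ i1)
        (Eventually.of_forall fun x => Finset.sum_nonneg fun i _ => n1 i x))
    by_cases hp : p₀ x = 0
    · exact hp.le.trans (Finset.sum_nonneg fun i _ => n1 i x)
    obtain ⟨a1, a2, a3⟩ := (h0 x hx).2 hp
    refine le_trans (le_of_eq ?_) (Finset.sum_le_sum_of_subset_of_nonneg
      (Finset.filter_subset (fun i => x ∈ O i ∧ Tr (H i) H₀ x) Finset.univ) fun i _ _ => n1 i x)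
    rw [Finset.sum_congr rfl fun i hi => by
      rw [a3 i (Finset.mem_filter.1 hi).2.1 (Finset.mem_filter.1 hi).2.2],
      ← Finset.sum_mul, (hT.all H₀ x a1 a2).self_of_nhds, one_mul]
  · obtain ⟨b1, b2⟩ := st_BR n k j m N M G Q K K' O H χ A (fun i y => u i y) (fun i y => w i y) hG hT
      hA (fun i x hx => ⟨G55.smAt_c (h i x hx).1, G55.smAt_c (h i x hx).2.1,
        fun h1 => (h i x hx).2.2.1 (ofReal_ne_zero.1 h1)⟩) fun i i' x h1 h2 h3 =>
      ⟨(hc i i' x h1 h2 h3).1, congrArg ofReal (hc i i' x h1 h2 h3).2.1, 0,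
        (hc i i' x h1 h2 h3).2.2.mono fun y hy => by rw [add_zero, hy]⟩
    have b3 := congrArg re b2
    rw [re_sum, zero_re] at b3
    rw [eq_neg_iff_add_eq_zero, ← Finset.sum_add_distrib, ← b3]
    refine Finset.sum_congr rfl fun i _ => ?_
    rw [← integral_add (p1 i (fun x => w i x * pa M G (A i) (M.hs (u i)) x) fun x hx =>
      (KA.smAt_cont (h i x hx).2.1).mul (h i x hx).2.2.2.1) (p1 i _ fun x hx => (h i x hx).2.2.2.2)]
    refine Eq.trans (integral_congr_ae (Eventually.of_forall fun x => ?_)) (integral_re (b1 i))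
    simp only [RCLike.re_to_complex, re_ofReal_mul, G55.re_grn]
    ring

end Pool.Agent.Lib.RAE
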