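import Pool.Agent.Lib.RAE.Blue
import Pool.Agent.Lib.RA.Blue0

/-! Project ra1, step E: the branches carry almost closed currents. -/

open scoped Classical Topology ContDiff ComplexOrder Matrix
open Set MeasureTheory Complex Metric Filter

set_option linter.unusedVariables false

noncomputable section

namespace Pool.Agent.Lib.RAE

open Pool.Agent.Lib.SV (E nsq)
open Pool.Agent.Lib.HS32 Pool.Agent.Lib.PN Pool.Agent.Lib.RA

namespace CLOB

theorem amgm {p a b s d t F : ℝ} (ha : 0 ≤ a) (hb : 0 ≤ b) (hp : p ^ 2 ≤ a * b) (hs : 0 ≤ s)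
    (hs1 : s ≤ 1) (ht : 0 < t) (hF : 0 ≤ F) (h : s ≠ 0 → d ≠ 0 → a ≤ F) :
    -(s * (d * p)) - t⁻¹ * (s * d ^ 2 * b) ≤ t * F := by
  by_cases h1 : s = 0
  · simp only [h1, zero_mul, mul_zero, neg_zero, sub_zero]
    positivity
  by_cases h2 : d = 0
  · simp only [h2, zero_mul, mul_zero, neg_zero, ne_eq, OfNat.ofNat_ne_zero, not_false_eq_true,
      zero_pow, sub_zero]
    positivity
  have h3 : -(d * p) ≤ t * a + t⁻¹ * (d ^ 2 * b) := by
    refine (neg_le_abs _).trans (abs_le_of_sq_le_sq' ?_ (by positivity)).2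
    have e : t * a * (t⁻¹ * (d ^ 2 * b)) = d ^ 2 * (a * b) := by field_simp
    have h4 := mul_le_mul_of_nonneg_left hp (sq_nonneg d)
    have h5 : 0 ≤ d ^ 2 * (a * b) := by positivity
    rw [sq_abs]
    nlinarith [sq_nonneg (t * a), sq_nonneg (t⁻¹ * (d ^ 2 * b))]
  have h4 := mul_le_mul_of_nonneg_left h3 hs
  have h5 : s * (t * a) ≤ t * F :=
    (mul_le_of_le_one_left (by positivity) hs1).trans (mul_le_mul_of_nonneg_left (h h1 h2) ht.le)
  nlinarith

theorem cd_sx {k j : ℕ} : ContDiff ℝ ∞ (sx : E (k + j) → E j) :=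
  contDiff_pi.2 fun l => contDiff_apply ℝ ℂ (Fin.natAdd k l)

end CLOB

open CLOB

theorem st_CLO (hI : St_GIBP) (hT : St_TOPK) (hP : St_PAK) (hA : St_ATK) (hE : St_ENE) :
    St_CLO := by
  intro q k j N M _ G η Q U δ' V₀ C ε v hG hη hL hC hε hv
  obtain ⟨C', hC'⟩ := hE q k j N M G η Q U δ' V₀ C hG hη hL hC
  obtain ⟨B, hB, hB', -⟩ := (mBD _ M G hG.toMet).1 _ ((mHES _ M).2.2.1 v hv).1
  set t : ℝ := ε / 2 / (N * (B * q) * |V₀| + 1) with ht
  have hD : 0 < N * (B * q) * |V₀| + 1 := by positivity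
  have t0 : 0 < t := by positivity
  filter_upwards [eventually_gt_atTop 0, eventually_ge_atTop (t⁻¹ * C' / (ε / 2))]
    with Λ h0 h1 m O H χ F θ g ψ hl hc hψ hψ'
  obtain ⟨a1, -, a3, -, a5⟩ := hA _ k j m N M G Q _ _ O H χ hG.toMet hl.atl
  have T := fun i => hT q k j M G (O i) (H i) hG (hl.atl.op i) fun x hx => (hl.atl.q i x hx).2.1
  have sH' : ∀ i, ∀ x ∈ O i, SmAt M (H i) x := fun i x hx =>
    KA.smAt_of_an (KA.anAt_of_hol (hl.atl.q i x hx).2.1)
  have sU : ∀ i, ∀ x ∈ O i, SmAt M (U ∘ H i) x := fun i x hx =>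
    KA.smAt_comp (hL.sm _ (hl.atl.q i x hx).2.2) (sH' i x hx)
  have sψ : ∀ i, ∀ x ∈ O i, SmAt M (fun y => ψ (sx (H i y))) x := fun i x hx =>
    KA.smAt_comp (K := ψ ∘ sx) (hψ.comp cd_sx).contDiffAt (sH' i x hx)
  have sv := KA.smAt_of_sm hv
  have p2 := fun i x (hx : x ∈ O i) =>
    (hP _ M G (sH M G (H i)) x).2.2 v (U ∘ H i) θ (sv x) (sU i x hx) hc.st.contDiffAt
  have p1 := fun i x (hx : x ∈ O i) =>
    (hP _ M G (sH M G (H i)) x).2.1 v _ _ (sv x) (sψ i x hx) (p2 i x hx).1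
  set w : Fin m → M.X → ℝ := fun i y => ψ (sx (H i y)) * θ (U (H i y)) with hw
  set p : Fin m → M.X → ℝ := fun i => pa M G (sH M G (H i)) (M.ds v (w i)) with hp
  set r : Fin m → M.X → ℝ := fun i x => ψ (sx (H i x)) * deriv θ (U (H i x)) ^ 2 *
    pa M G (sH M G (H i)) (M.ds (U ∘ H i) (U ∘ H i)) x with hr
  have cw := fun i x (hx : x ∈ O i) => ((T i).2 x hx).2.2.2.2.2.2.2.2.1 v (w i) fun y hy =>
    ⟨sv y, (p1 i y hy).1⟩
  have cr : ∀ i, ∀ x ∈ O i, ContinuousAt (r i) x := fun i x hx =>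
    ((KA.smAt_cont (sψ i x hx)).mul (((hc.st.continuous_deriv (by simp)).continuousAt.comp
      (KA.smAt_cont (sU i x hx))).pow 2)).mul
      (((T i).2 x hx).2.2.2.2.2.2.2.2.1 _ _ fun y hy => ⟨sU i y hy, sU i y hy⟩).2
  have b1 := a5 (fun i => sH M G (H i)) (fun _ => v) w (fun i => (T i).1)
    (fun i x hx => ⟨sv x, (p1 i x hx).1, fun h => ⟨(hψ' _).2.2 (left_ne_zero_of_mul h),
      le_of_not_ge fun h' => right_ne_zero_of_mul h (hc.zero _ h').1⟩, cw i x hx⟩)
    fun i i' x hx hx' h => by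
      obtain ⟨-, d1, -, d2⟩ := ((T i).2 x hx).2.2.2.2.2.2.2.2.2 _ h
      obtain ⟨a, ha⟩ := h
      refine ⟨d1, ?_, EventuallyEq.rfl⟩
      simp only [hw]
      rw [d2.self_of_nhds, ha.self_of_nhds, hL.inv]
  have b2 := a3 (fun i x => -p i x - t⁻¹ * r i x) (fun x => t * (B * (q * F x)))
    (continuous_const.mul (continuous_const.mul (continuous_const.mul hl.cont)))
    (fun x => by have := hl.nn x; positivity) fun i x hx =>
      ⟨(cw i x hx).2.neg.sub (continuousAt_const.mul (cr i x hx)), by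
        obtain ⟨-, -, d1, -, -, d2, d3, -⟩ := (T i).2 x hx
        have g1 := fun u w' (hu : ∀ y ∈ O i, SmAt M u y ∧ SmAt M w' y) =>
          (((hI _ M G _ (O i) hG.toMet (hl.atl.op i) (T i).1).2 u w' hu).1 x hx).2.2 d1
        have g2 := g1 v (U ∘ H i) fun y hy => ⟨sv y, sU i y hy⟩
        have e : p i x = ψ (sx (H i x)) * (deriv θ (U (H i x)) *
            pa M G (sH M G (H i)) (M.ds v (U ∘ H i)) x) := by
          have := (p1 i x hx).2
          rw [d3 ψ v hψ.contDiffAt (sv x), mul_zero, add_zero, (p2 i x hx).2] at this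
          exact this
        rw [e]
        refine amgm g2.1 (g1 _ _ fun y hy => ⟨sU i y hy, sU i y hy⟩).1 g2.2 (hψ' _).1 (hψ' _).2.1
          t0 (by have := hl.nn x; positivity) fun n1 n2 =>
            (d2 _ B (KA.at_of_all hB' x)).trans ?_
        have := hl.le _ x (hl.atl.q i x hx).1 ((hψ' _).2.2 n1)
          (le_of_not_ge fun h' => n2 (hc.zero _ h').2.2)
        gcongr⟩
  have b3 := hC' Λ m O H χ F θ g ψ h0 hl hc hψ hψ'
  have b4 : ∀ i, ∫ x, χ i x * (-p i x - t⁻¹ * r i x) ∂M.mu G =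
      -∫ x, χ i x * p i x ∂M.mu G - t⁻¹ * ∫ x, χ i x * r i x ∂M.mu G := fun i => by
    have i1 : Integrable (fun x => -(χ i x * p i x)) (M.mu G) :=
      (a1 i _ fun x hx => (cw i x hx).2).neg
    rw [← integral_neg, ← integral_const_mul, ← integral_sub i1 ((a1 i _ (cr i)).const_mul _)]
    exact integral_congr_ae (.of_forall fun x => by ring)
  simp only [b4, Finset.sum_sub_distrib, Finset.sum_neg_distrib, ← Finset.mul_sum,
    integral_const_mul] at b2
  have b5 : N * (t * (B * (q * ∫ x, F x ∂M.mu G))) ≤ ε / 2 := by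
    have h2 : N * (t * (B * (q * ∫ x, F x ∂M.mu G))) ≤ N * (t * (B * (q * |V₀|))) := by
      have := hl.int.trans (le_abs_self _)
      gcongr
    have h3 : t * (N * (B * q) * |V₀| + 1) = ε / 2 := div_mul_cancel₀ _ hD.ne'
    nlinarith
  have b6 : t⁻¹ * (C' / Λ) ≤ ε / 2 := by
    rw [← mul_div_assoc, div_le_iff₀ h0, mul_comm (ε / 2)]
    exact (div_le_iff₀ (half_pos hε)).1 h1
  have b7 := mul_le_mul_of_nonneg_left b3 (inv_pos.2 t0).le
  refine b1.trans_le ?_
  linarith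

end Pool.Agent.Lib.RAE
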