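import Pool.Agent.Lib.RAE.Blue

/-! Project ra1, step E: cut-off functions. -/

open scoped Classical Topology ContDiff
open Set MeasureTheory Metric Filter

set_option linter.unusedVariables false

noncomputable section

namespace Pool.Agent.Lib.RAE

namespace CUTB

/-- The cut-off function at the level one. -/
def t1 (t : ℝ) : ℝ := Real.smoothTransition (2 - t)

/-- The primitive. -/
def g1 (t : ℝ) : ℝ := -∫ s in (2 : ℝ)..t, deriv t1 s ^ 2

theorem t1_sm : ContDiff ℝ ∞ t1 :=
  Real.smoothTransition.contDiff.comp (contDiff_const.sub contDiff_id)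

theorem d_sm : ContDiff ℝ ∞ fun s => deriv t1 s ^ 2 := (contDiff_infty_iff_deriv.1 t1_sm).2.pow 2

theorem t1_one {t : ℝ} (h : t ≤ 1) : t1 t = 1 := Real.smoothTransition.one_of_one_le (by linarith)

theorem t1_zero {t : ℝ} (h : 2 ≤ t) : t1 t = 0 := Real.smoothTransition.zero_of_nonpos (by linarith)

theorem d_one {t : ℝ} (h : t ≤ 1) : deriv t1 t = 0 :=
  IsLocalMax.deriv_eq_zero (Eventually.of_forall fun s => by
    rw [t1_one h]
    exact Real.smoothTransition.le_one _)

theorem d_zero {t : ℝ} (h : 2 ≤ t) : deriv t1 t = 0 :=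
  IsLocalMin.deriv_eq_zero (Eventually.of_forall fun s => by
    rw [t1_zero h]
    exact Real.smoothTransition.nonneg _)

theorem g1_der (t : ℝ) : HasDerivAt g1 (-deriv t1 t ^ 2) t :=
  (d_sm.continuous.integral_hasStrictDerivAt 2 t).hasDerivAt.neg

theorem g1_sm : ContDiff ℝ ∞ g1 := by
  refine contDiff_infty_iff_deriv.2 ⟨fun t => (g1_der t).differentiableAt, ?_⟩
  have : deriv g1 = fun s => -deriv t1 s ^ 2 := funext fun t => (g1_der t).deriv
  rw [this]
  exact d_sm.neg

theorem g1_anti : Antitone g1 :=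
  antitone_of_deriv_nonpos (fun t => (g1_der t).differentiableAt) fun t => by
    rw [(g1_der t).deriv]
    exact neg_nonpos.2 (sq_nonneg _)

theorem g1_zero {t : ℝ} (h : 2 ≤ t) : g1 t = 0 := by
  rw [g1, neg_eq_zero, intervalIntegral.integral_congr (g := fun _ => 0), intervalIntegral.integral_zero]
  intro s hs
  rw [uIcc_of_le h] at hs
  simp only [d_zero hs.1, ne_eq, OfNat.ofNat_ne_zero, not_false_eq_true, zero_pow]

theorem g1_one {t : ℝ} (h : t ≤ 1) : g1 t = g1 1 := by
  have h1 := intervalIntegral.integral_add_adjacent_intervals (μ := volume)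
    (d_sm.continuous.intervalIntegrable 2 t) (d_sm.continuous.intervalIntegrable t 1)
  have h2 : ∫ s in t..1, deriv t1 s ^ 2 = 0 := by
    rw [intervalIntegral.integral_congr (g := fun _ => 0), intervalIntegral.integral_zero]
    intro s hs
    rw [uIcc_of_le h] at hs
    simp only [d_one hs.2, ne_eq, OfNat.ofNat_ne_zero, not_false_eq_true, zero_pow]
  rw [g1, g1, ← h1, h2, add_zero]

theorem g1_nonneg (t : ℝ) : 0 ≤ g1 t := by
  rcases le_total 2 t with h | h
  · exact (g1_zero h).ge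
  · exact (g1_zero le_rfl).ge.trans (g1_anti h)

theorem g1_le (t : ℝ) : g1 t ≤ g1 1 := by
  rcases le_total t 1 with h | h
  · exact (g1_one h).le
  · exact g1_anti h

end CUTB

open CUTB in
theorem st_CUT : St_CUT := by
  refine ⟨g1 1 + 1, by linarith [g1_nonneg 1], fun Λ hΛ =>
    ⟨fun t => t1 (t / Λ), fun t => g1 (t / Λ) / Λ, ?_⟩⟩
  have h1 : ∀ t, HasDerivAt (fun t => t1 (t / Λ)) (deriv t1 (t / Λ) * (1 / Λ)) t := fun t =>
    HasDerivAt.comp (h₂ := t1) (h := fun t => t / Λ) t
      (t1_sm.differentiable (by simp) _).hasDerivAt ((hasDerivAt_id t).div_const Λ)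
  have h2 : ∀ t, HasDerivAt (fun t => g1 (t / Λ) / Λ) (-deriv t1 (t / Λ) ^ 2 * (1 / Λ) / Λ) t :=
    fun t => (HasDerivAt.comp (h₂ := g1) (h := fun t => t / Λ) t (g1_der _)
      ((hasDerivAt_id t).div_const Λ)).div_const Λ
  refine ⟨t1_sm.comp (contDiff_id.div_const Λ), (g1_sm.comp (contDiff_id.div_const Λ)).div_const Λ,
    fun t ht => t1_one ((div_le_one hΛ).2 ht), fun t ht => ?_, fun t => ?_, fun t => ?_⟩
  · have h3 : 2 ≤ t / Λ := (le_div_iff₀ hΛ).2 ht
    refine ⟨t1_zero h3, by rw [g1_zero h3, zero_div], ?_⟩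
    rw [(h1 t).deriv, d_zero h3, zero_mul]
  · exact ⟨Real.smoothTransition.nonneg _, Real.smoothTransition.le_one _,
      div_nonneg (g1_nonneg _) hΛ.le,
      div_le_div_of_nonneg_right (by linarith [g1_le (t / Λ)]) hΛ.le⟩
  · rw [(h1 t).deriv, (h2 t).deriv]
    ring

end Pool.Agent.Lib.RAE
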