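import Pool.Agent.Lib.RAE.Blue

/-! Project ra1, step E, row ENE: the energy bound. -/

open scoped Classical Topology ContDiff ComplexOrder Matrix
open Set MeasureTheory Complex Metric Filter

set_option linter.unusedVariables false

noncomputable section

namespace Pool.Agent.Lib.RAE

open Pool.Agent.Lib.SV (E nsq)
open Pool.Agent.Lib.HS32 Pool.Agent.Lib.PN Pool.Agent.Lib.RA

namespace ENE

theorem cd_sx {k j : ℕ} : ContDiff ℝ ∞ (sx : E (k + j) → E j) :=
  contDiff_pi.2 fun l => contDiff_apply ℝ ℂ _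

end ENE

theorem st_ENE (hT : St_TOPK) (hP : St_PAK) (hA : St_ATK) : St_ENE := by
  intro q k j N M _ G η Q U δ' V₀ C hG hη hL hC
  obtain ⟨C₀, hC₀, hle, -⟩ := (mBD _ M G hG.toMet).1 η hη
  refine ⟨N * (C * C₀ * q * V₀), ?_⟩
  intro Λ m O H χ F θ g ψ hΛ hF hc hψ hψ'
  have hat := hF.atl
  obtain ⟨-, -, a3, -, a5⟩ := hA _ k j m N M G Q _ _ O H χ hG.toMet hat
  have tp := fun i => hT q k j M G (O i) (H i) hG (hat.op i) fun x hx => (hat.q i x hx).2.1
  have sH' : ∀ i, ∀ x ∈ O i, SmAt M (H i) x := fun i x hx =>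
    KA.smAt_of_an (KA.anAt_of_hol (hat.q i x hx).2.1)
  have su : ∀ i, ∀ x ∈ O i, SmAt M (U ∘ H i) x := fun i x hx =>
    KA.smAt_comp (hL.sm _ (hat.q i x hx).2.2) (sH' i x hx)
  have sp : ∀ i, ∀ x ∈ O i, SmAt M (fun y => ψ (sx (H i y))) x := fun i x hx =>
    KA.smAt_comp (K := fun t => ψ (sx t)) (hψ.comp ENE.cd_sx).contDiffAt (sH' i x hx)
  have sg : ∀ i, ∀ x ∈ O i, SmAt M (fun y => g ((U ∘ H i) y)) x := fun i x hx =>
    KA.smAt_comp (K := g) hc.sg.contDiffAt (su i x hx)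
  set w : Fin m → M.X → ℝ := fun i y => ψ (sx (H i y)) * g ((U ∘ H i) y) with hw
  have sw : ∀ i, ∀ x ∈ O i, SmAt M (w i) x := fun i x hx =>
    ((hP _ M G G x).2.1 _ _ _ (su i x hx) (sp i x hx) (sg i x hx)).1
  have wK : ∀ i x, w i x ≠ 0 → ‖sx (H i x)‖ ≤ δ' / 2 ∧ U (H i x) ≤ 2 * Λ := fun i x h => by
    obtain ⟨h1, h2⟩ := mul_ne_zero_iff.1 h
    exact ⟨(hψ' _).2.2 h1, (not_le.1 fun h3 => h2 (hc.zero _ h3).2.1).le⟩
  have cts := fun i x (hx : x ∈ O i) =>
    ((tp i).2 x hx).2.2.2.2.2.2.2.2.1 (U ∘ H i) (w i) fun y hy => ⟨su i y hy, sw i y hy⟩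
  have e5 := a5 (fun i => sH M G (H i)) (fun i => U ∘ H i) w (fun i => (tp i).1)
    (fun i x hx => ⟨su i x hx, sw i x hx, wK i x, (cts i x hx).1, (cts i x hx).2⟩)
    (fun i i' x hx hx' htr => by
      obtain ⟨-, b1, -, b2⟩ := ((tp i).2 x hx).2.2.2.2.2.2.2.2.2 (H i') htr
      obtain ⟨a, ha⟩ := htr
      have b3 : U ∘ H i' =ᶠ[𝓝 x] U ∘ H i := ha.mono fun y hy => by
        simp only [Function.comp, hy, hL.inv]
      refine ⟨b1, ?_, b3⟩
      simp only [hw, b2.self_of_nhds, b3.self_of_nhds])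
  have e1 : ∀ i x, χ i x * (ψ (sx (H i x)) * deriv θ (U (H i x)) ^ 2 *
      pa M G (sH M G (H i)) (M.ds (U ∘ H i) (U ∘ H i)) x) =
      -(χ i x * pa M G (sH M G (H i)) (M.ds (U ∘ H i) (w i)) x) := fun i x => by
    by_cases hx : x ∈ O i
    · have c1 := ((hP _ M G (sH M G (H i)) x).2.1 _ _ _ (su i x hx) (sp i x hx) (sg i x hx)).2
      have c2 := ((hP _ M G (sH M G (H i)) x).2.2 _ _ g (su i x hx) (su i x hx)
        hc.sg.contDiffAt).2
      have c3 := ((tp i).2 x hx).2.2.2.2.2.2.1 ψ _ hψ.contDiffAt (su i x hx)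
      rw [hw]
      simp only []
      rw [c1, c2, c3, hc.der]
      simp only [Function.comp]
      ring
    · have : χ i x = 0 := image_eq_zero_of_notMem_tsupport fun h => hx (hat.supp i h)
      simp [this]
  have hk : 0 ≤ C / Λ * (C₀ * q) := by positivity
  have e3 := a3 (fun i x => w i x * pa M G (sH M G (H i)) (M.hs (U ∘ H i)) x)
    (fun x => C / Λ * (C₀ * q) * F x) (continuous_const.mul hF.cont)
    (fun x => mul_nonneg hk (hF.nn x)) (fun i x hx => by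
      refine ⟨(KA.smAt_cont (sw i x hx)).mul (cts i x hx).1, ?_⟩
      by_cases h0 : w i x = 0
      · simpa [h0] using mul_nonneg hk (hF.nn x)
      have d1 := ((hP _ M G (sH M G (H i)) x).1 _ _ 0).2.2.1 (hL.hs _ _ (hat.q i x hx).1).2
      have d2 := ((tp i).2 x hx).2.2.2.2.2.1 η C₀ (KA.at_of_all hle x)
      have d3 := hF.le _ _ (hat.q i x hx).1 (wK i x h0).1 (wK i x h0).2
      have d4 := ((tp i).2 x hx).2.1
      have d5 : 0 ≤ w i x := mul_nonneg (hψ' _).1 (hc.bd _).2.2.1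
      have d6 : w i x ≤ C / Λ := by
        calc w i x ≤ 1 * (C / Λ) :=
              mul_le_mul (hψ' _).2.1 (hc.bd _).2.2.2 (hc.bd _).2.2.1 zero_le_one
          _ = _ := one_mul _
      rw [d1]
      calc w i x * pa M G (sH M G (H i)) η x ≤ w i x * (C₀ * (q * aH M G (H i) x)) :=
            mul_le_mul_of_nonneg_left d2 d5
        _ ≤ C / Λ * (C₀ * (q * F x)) := by gcongr
        _ = _ := by ring)
  simp only [e1, integral_neg, Finset.sum_neg_distrib]
  rw [← e5]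
  refine e3.trans ?_
  rw [integral_const_mul]
  calc (N : ℝ) * (C / Λ * (C₀ * q) * ∫ x, F x ∂M.mu G) ≤ N * (C / Λ * (C₀ * q) * V₀) := by
        gcongr
        exact hF.int
    _ = _ := by ring

end Pool.Agent.Lib.RAE
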