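import Pool.Agent.Lib.RAE.Blue
import Pool.Agent.Lib.RA.B_PHH
import Pool.Agent.Lib.RA.B_EXT
import Pool.Agent.Lib.RA.B_ATL
import Pool.Agent.Lib.RA.B_WAD
import Pool.Agent.Lib.RA.B_TV

/-! Uniform extension of admissible germs. -/

open scoped Classical Topology ContDiff ComplexOrder Matrix
open Set MeasureTheory Complex Metric Filter

set_option linter.unusedVariables false

noncomputable section

namespace Pool.Agent.Lib.RAE

open Pool.Agent.Lib.SV (E nsq)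
open Pool.Agent.Lib.HS32 Pool.Agent.Lib.PN Pool.Agent.Lib.RA Pool.Agent.Lib.RA.PK
  Pool.Agent.Lib.RA.PHK

namespace EXTQB

variable {n : ℕ}

theorem fd_bd {F : E n × E n → ℂ} {y v : E n × E n} {r B : ℝ} (hr : 0 < r)
    (h : DifferentiableOn ℂ F (ball y r)) (hB : ∀ w ∈ ball y r, ‖F w‖ ≤ B) (hv : ‖v‖ ≤ 1) :
    ‖fderiv ℂ F y v‖ ≤ 2 * B / r :=
  ((fderiv ℂ F y).le_opNorm v).trans ((mul_le_of_le_one_right (norm_nonneg _) hv).trans
    (SV.H85.norm_fderiv_le hr h hB))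

theorem gm_bd {F : E n × E n → ℂ} {y w : E n × E n} {r B : ℝ}
    (h : DifferentiableOn ℂ F (ball y (3 * r))) (hB : ∀ w ∈ ball y (3 * r), ‖F w‖ ≤ B)
    (hw : w ∈ ball y r) (i l : Fin n) : ‖Gm F w i l‖ ≤ 2 * (2 * B / r) / r := by
  have hr := pos_of_mem_ball hw
  have s : ∀ x ∈ ball w r, ball x r ⊆ ball y (3 * r) := fun x hx => ball_subset_ball' (by
    have := dist_triangle x w y
    rw [mem_ball] at hx hw
    linarith)
  refine fd_bd (F := fun x => pz F x l) hr (on_of_hn fun x hx =>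
    hn_pz (hn_of_on isOpen_ball h (s x hx (mem_ball_self hr))) l) (fun x hx =>
    fd_bd hr (h.mono (s x hx)) (fun z hz => hB z (s x hx hz)) ?_) ?_ <;>
  simp [Prod.norm_def, Pi.norm_single]

theorem plz_hr {f : E n → ℝ} {F : E n × E n → ℂ} {c z : E n} {R : ℝ} (h : Plz f F c R)
    (hz : z ∈ ball c R) : hr f z = Gm F (dg z) := by
  rw [← hess_dg (hn_of_on isOpen_ball h.hol (dg_mem_ball.2 hz))]
  refine hess_congr ?_
  filter_upwards [isOpen_ball.mem_nhds hz] with w hw using (h.eq w hw).symm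

theorem plz_mono {f : E n → ℝ} {F : E n × E n → ℂ} {c : E n} {R R' : ℝ} (h : Plz f F c R)
    (e : R' ≤ R) : Plz f F c R' :=
  ⟨h.hol.mono (ball_subset_ball e), fun z hz => h.eq z (ball_subset_ball e hz)⟩

/-- Uniform polarisation of the weights of the flow near a point. -/
theorem unif {k j : ℕ} {M : Mf n} {φ : M.Fam ℝ} {μ : Fin k → M.X → ℝ} {V : M.Cov}
    {ρ : (Fin k → ℝ) → M.X → ℝ} (hF : Flow M j φ μ V ρ) (L : ℝ) (x : M.X) :
    ∃ e ∈ M.C, x ∈ e.source ∧ ∃ r C : ℝ, 0 < r ∧ 0 < C ∧ ball (e x) r ⊆ e.target ∧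
      ∀ ξ, ‖ξ‖ ≤ L → ∃ F, Plz (fun z => φ e z + ρ ξ (e.symm z)) F (e x) r ∧
        ∀ z ∈ ball (e x) r, ∀ v, nq (hr (fun z => φ e z + ρ ξ (e.symm z)) z) v ≤ C * ‖v‖ ^ 2 := by
  obtain ⟨a, hx, hxa, -⟩ := V.cov x
  obtain ⟨F₀, h0⟩ := hF.pc a
  obtain ⟨s, d, B, s0, d0, hP⟩ := hF.pol (L + 1)
  have hρ := V.pos a
  have s1 : closedBall (dg (V.e a x)) (V.ρ a) ⊆ ball (dg (V.c a)) (4 * V.ρ a) :=
    closedBall_subset_ball' (by
      have := dg_mem_ball.2 hxa
      rw [mem_ball] at this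
      linarith)
  obtain ⟨B₀, hB₀⟩ := (isCompact_closedBall _ _).exists_bound_of_continuousOn
    (h0.hol.continuousOn.mono s1)
  obtain ⟨r, r0, r1, r2⟩ : ∃ r : ℝ, 0 < r ∧ 3 * r ≤ d ∧ 3 * r ≤ V.ρ a :=
    ⟨min (d / 3) (V.ρ a / 3), by positivity, by linarith [min_le_left (d / 3) (V.ρ a / 3)],
      by linarith [min_le_right (d / 3) (V.ρ a / 3)]⟩
  have s2 : ball (dg (V.e a x)) (3 * r) ⊆ closedBall (dg (V.e a x)) (V.ρ a) :=
    (ball_subset_ball r2).trans ball_subset_closedBall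
  refine ⟨V.e a, V.mem a, hx, r, |∑ _i : Fin n, ∑ _l : Fin n, 2 * (2 * (B₀ + B) / r) / r| + 1, r0,
    by positivity, fun z hz => V.sub a (ball_subset_closedBall (dg_mem_ball.1
      (s1 (s2 (dg_mem_ball.2 (ball_subset_ball (by linarith) hz)))))), fun ξ hξ => ?_⟩
  obtain ⟨-, R, h1, h2, h3⟩ := hP ξ (mem_ball_zero_iff.2 (by linarith)) a (V.e a x)
    (ball_subset_closedBall (ball_subset_ball (by linarith) hxa))
  have m : ∀ w ∈ ball (dg (V.e a x)) (3 * r), (cx ξ, w) ∈ ball (cx ξ) s ×ˢ ball (dg (V.e a x)) d :=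
    fun w hw => ⟨mem_ball_self s0, ball_subset_ball r1 hw⟩
  have p : Plz (fun z => φ (V.e a) z + ρ ξ ((V.e a).symm z)) (fun w => F₀ w + R (cx ξ, w))
      (V.e a x) (3 * r) :=
    ⟨(h0.hol.mono (s2.trans s1)).add (h1.comp (by fun_prop) m), fun z hz => by
      rw [h0.eq z (dg_mem_ball.1 (s1 (s2 (dg_mem_ball.2 hz)))),
        h3 ξ (mem_ball_self s0) z (ball_subset_ball r1 hz), ofReal_add]⟩
  have p' := plz_mono p (show r ≤ 3 * r by linarith)
  refine ⟨_, p', fun z hz v => (BATL.nq_le _ v).trans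
    (mul_le_mul_of_nonneg_right ?_ (sq_nonneg _))⟩
  refine le_trans (Finset.sum_le_sum fun i _ => Finset.sum_le_sum fun l _ => ?_)
    ((le_abs_self _).trans (le_add_of_nonneg_right zero_le_one))
  rw [plz_hr p' hz]
  exact gm_bd p.hol (fun w hw => norm_add_le_of_le (hB₀ w (s2 hw)) (h2 _ (m w hw)))
    (dg_mem_ball.2 hz) i l

theorem pj_sh_neg {k j : ℕ} (t : E (k + j)) : ‖pj (sh t (-r2 (fx t)))‖ ≤ ‖sx t‖ := by
  refine norm_le_fs (le_trans (le_of_eq (norm_eq_zero.2 ?_)) (norm_nonneg _)) (by simp)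
  funext i
  simp [sh, r2]

end EXTQB

open EXTQB BATL0 in
theorem st_EXTQ (hP : St_PROP) : St_EXTQ := by
  intro n k j M G φ μ V ρ Φ δ c O H₀ ψ δ' c₁ h L x
  obtain ⟨P1, P2⟩ := hP n k j M G φ μ V ρ Φ δ c O H₀ ψ δ' c₁ h
  obtain ⟨e, he, hx, r, C, r0, C0, hs, hU⟩ := unif h.fl L x
  have d0 := h.ph.d0
  have d1 := h.ph.d1
  obtain ⟨r₀, hr₀, hE⟩ := st_EXTT n k j Φ δ c C (δ' / 2) h.tv C0 (by linarith)
  obtain ⟨s, hs0, hs1, hs2⟩ : ∃ s : ℝ, 0 < s ∧ s ≤ r₀ ∧ s ≤ r / 2 :=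
    ⟨min r₀ (r / 2), by positivity, min_le_left _ _, min_le_right _ _⟩
  have hb : ∀ z ∈ ball (e x) (s / 2), ball z s ⊆ ball (e x) r := fun z hz =>
    ball_subset_ball' (by rw [mem_ball] at hz; linarith)
  have hb0 : ball (e x) (s / 2) ⊆ e.target := fun z hz => hs (hb z hz (mem_ball_self hs0))
  have hxO : x ∈ bl e (e x) (s / 2) := ⟨hx, mem_ball_self (by linarith)⟩
  refine ⟨bl e (e x) (s / 2), (bl_open _ _ _).mem_nhds hxO, bl_open _ _ _, ?_,
    fun y hy H hH hL hK => ?_⟩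
  · have h1 : bl e (e x) (s / 2) = e.symm '' ball (e x) (s / 2) := by
      refine Subset.antisymm (fun y hy => ⟨_, hy.2, e.left_inv hy.1⟩) ?_
      rintro _ ⟨z, hz, rfl⟩
      exact bl_symm hb0 hz
    rw [h1]
    exact (convex_ball _ _).isPreconnected.image _ (e.continuousOn_symm.mono hb0)
  set ξ := -r2 (fx (H y)) with hξ
  have v0 : ‖pj (sh (H y) ξ)‖ ≤ δ' / 2 := (pj_sh_neg _).trans hK
  have hA := h.ph.up H y ξ hH (by linarith)
  obtain ⟨F, hF, hFb⟩ := hU ξ (by rwa [hξ, norm_neg])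
  have hyt := e.open_target.mem_nhds (e.map_source hy.1)
  have hbt : ball (e y) s ⊆ e.target := (hb _ hy.2).trans hs
  have hcs : Tendsto e.symm (𝓝 (e y)) (𝓝 y) := e.tendsto_symm hy.1
  have q : ∀ z ∈ e.target, hr (fun z => φ e z + ρ ξ (e.symm z)) z =
      (M.hw φ + M.hs (ρ ξ)) e z := fun z hz => by
    have := hess_add (cd_ofReal (h.su.wt.sm e he z hz))
      (cd_ofReal (KA.at_tgt he hz (sm_rho (h.fl.ja ξ _))))
    simp only [← ofReal_add] at this
    exact this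
  obtain ⟨h', g1, g2, g3⟩ := hE _ F (e x) r ((fun w => sh (H w) ξ) ∘ e.symm) (e y) s hF hFb hs0 hs1
    (hb _ hy.2) (hA.iso.1 e he hy.1) (by simp only [Function.comp, e.left_inv hy.1]; linarith)
    (by
      filter_upwards [hcs.eventually hA.iso.2, hyt] with z h1 h2
      rw [q z h2]
      exact KA.at_tgt he h2 h1)
    (by
      have h4 : ∃ᶠ w in 𝓝 y, w ∈ X0 M (M.hw φ) (k + j) := mem_closure_iff_frequently.1 (h.su.den y)
      refine (((fr_ch hy.1).1 h4).and_eventually ((hcs.eventually ((P2 H y hH).1.and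
        (hA.iso.2.and (hA.iso.1.near.and (BWAD.ev_val hA.iso.1 hA.val))))).and hyt)).mono
        fun z hz => ?_
      obtain ⟨z1, ⟨z2, z3, z4, z5⟩, z6⟩ := hz
      rw [q z z6, (KA.at_tgt he z6 (BWAD.point st_TV h.tv z4 z5 z3)).2.2.2, ← BCH2.surj_iff]
      have := KA.at_tgt he z6 ((P2 H _ z2).2.2.1 z1)
      rwa [← fderiv_add_const (io j ((1 / 2 : ℝ) • ξ))] at this)
  let H' : M.X → E (k + j) := fun w => sh (h' (e w)) (-ξ)
  have g4 : H' =ᶠ[𝓝 y] H := by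
    filter_upwards [(e.continuousAt hy.1).eventually g2, e.open_source.mem_nhds hy.1] with w h4 h5
    simp only [H', h4, Function.comp, e.left_inv h5, sh_sh, add_neg_cancel, sh_zero]
  have g5 : ∀ z ∈ ball (e y) s, ‖sx (H' (e.symm z))‖ ≤ δ' := by
    intro z hz
    have h4 := (norm_sx _).trans (g3 z hz).1
    have h5 := norm_le_norm_add_norm_sub' (sx (h' z)) (sx (H y))
    simp only [Function.comp, e.left_inv hy.1, sx_sub, sx_sh] at h4
    simp only [H', e.right_inv (hbt hz), sx_sh]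
    linarith
  have g6 : DifferentiableOn ℂ (H' ∘ e.symm) (ball (e y) s) :=
    (g1.add_const _).congr fun z hz => by
      simp only [Function.comp, H', e.right_inv (hbt hz)]
      rfl
  have g7 := P1 e he (e y) s hbt H' g6 (fun z hz => (g5 z hz).trans_lt (by linarith)) (e y)
    (mem_ball_self hs0) (by rw [e.left_inv hy.1]; exact (P2 H y hH).2.1 H' g4)
  refine ⟨H', g4, fun y' hy' => ?_⟩
  have g8 : e y' ∈ ball (e y) s := by
    have h4 := dist_triangle_right (e y') (e y) (e x)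
    have h5 : dist (e y) (e x) < s / 2 := hy.2
    have h6 : dist (e y') (e x) < s / 2 := hy'.2
    rw [mem_ball]
    linarith
  have g9 := g7 _ g8
  have g10 := g5 _ g8
  rw [e.left_inv hy'.1] at g9 g10
  exact ⟨g9, g10⟩

end Pool.Agent.Lib.RAE
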