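import Pool.Agent.Lib.RAE.Blue
import Pool.Agent.Lib.RA.B_TV
import Pool.Agent.Lib.RA.B_WAD

/-! Finite multiplicity of the germs with values in the complex tube. -/

open scoped Classical Topology ContDiff ComplexOrder Matrix
open Set Complex Metric Filter

noncomputable section

namespace Pool.Agent.Lib.RAE

open Pool.Agent.Lib.SV (E)
open Pool.Agent.Lib.HS32 Pool.Agent.Lib.RA

namespace FINEB

open KA TVB

variable {n k j : ℕ}

theorem r2_sh (t : E (k + j)) (a : Fin k → ℝ) : r2 (fx (sh t a)) = r2 (fx t) + a := by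
  funext i
  simp [r2, fx, sh]
  ring

theorem sx_sh (t : E (k + j)) (a : Fin k → ℝ) : sx (sh t a) = sx t := by
  funext l
  simp [sx, sh]

theorem sh_zero (t : E (k + j)) : sh t 0 = t := ext2 (fun i => by simp [sh]) fun l => by simp [sh]

theorem sh_neg (t : E (k + j)) :
    sh t (-r2 (fx t)) = Fin.append 0 (sx t) + I • io j fun i => (t (Fin.castAdd j i)).im :=
  ext2 (fun i => by
    apply Complex.ext <;> simp [sh, r2, fx]) fun l => by simp [sh, sx]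

theorem pj_le {t : E (k + j)} {δ : ℝ} (h0 : 0 ≤ δ) (h1 : ‖r2 (fx t)‖ ≤ δ) (h2 : ‖sx t‖ ≤ δ) :
    ‖pj t‖ ≤ δ := by
  refine (pi_norm_le_iff_of_nonneg h0).2 fun i => Fin.addCases (fun i => ?_) (fun l => ?_) i
  · have := (norm_le_pi_norm (r2 (fx t)) i).trans h1
    rw [r2, fx, norm_mul, Real.norm_two] at this
    rw [pj_l, norm_real]
    linarith [norm_nonneg (t (Fin.castAdd j i)).re]
  · rw [pj_r]
    exact (norm_le_pi_norm (sx t) l).trans h2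

variable {M : Mf n} {φ : M.Fam ℝ} {ρ : (Fin k → ℝ) → M.X → ℝ} {Φ : E (k + j) × E (k + j) → ℂ}
  {δ c δ' c₁ : ℝ} {O : Set M.X} {H₀ : M.X → E (k + j)} {ψ : E (k + j) → ℝ} {y : M.X}

theorem gap (hd : 0 < δ) (hp : Phh M φ ρ Φ δ O H₀ ψ δ' c₁) {H : M.X → E (k + j)}
    (h : AdmE M φ ρ ψ δ H y) (hs : ‖sx (H y)‖ ≤ δ') {ζ : Fin k → ℝ} (hz : δ ≤ ‖r2 (fx (H y)) + ζ‖) :
    ρ (-r2 (fx (H y))) y - mu0 Φ 0 ⬝ᵥ (-r2 (fx (H y))) < ρ ζ y - mu0 Φ 0 ⬝ᵥ ζ := by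
  have f := h.fam.self_of_nhds
  have a := hp.coe (sh (H y) ζ) (by rwa [sx_sh]) (by rwa [r2_sh])
  rw [sx_sh, r2_sh, dotProduct_add] at a
  rw [f, f, sh_neg, hp.inv, dotProduct_neg]
  nlinarith [mul_pos hp.c0 (hd.trans_le hz)]

theorem mom (hT : Tv k j Φ δ c) {ξ : Fin k → ℝ} {H H' : M.X → E (k + j)}
    (h : Adm M φ ρ Φ δ ξ H y) (h' : Adm M φ ρ Φ δ ξ H' y) :
    ∀ᶠ x in 𝓝 y, mu0 Φ (H x) = mu0 Φ (H' x) := by
  have e := (h.fam.and h'.fam)
  rw [nhds_prod_eq] at e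
  filter_upwards [(eventually_swap_iff.1 e).curry.mono fun _ hx => hx,
    BWAD.ev_val h.iso.1 h.val, BWAD.ev_val h'.iso.1 h'.val] with x h1 h2 h3
  have q : (fun a => ph0 Φ (sh (H x) a) - ph0 Φ (H x)) =ᶠ[𝓝 0]
      fun a => ph0 Φ (sh (H' x) a) - ph0 Φ (H' x) := h1.mono fun a ha => ha.1.symm.trans ha.2
  have d := q.fderiv_eq (𝕜 := ℝ)
  rw [fderiv_sub_const, fderiv_sub_const] at d
  have t := fun t ht b => ((st_TV k j Φ δ c hT).2.2.2.2.1 t ht).2.2.2.2.2 0 b (by rwa [sh_zero])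
  refine dotProduct_eq _ _ fun b => ?_
  have t1 := t _ h2 b
  have t2 := t _ h3 b
  rw [sh_zero] at t1 t2
  rw [← t1, ← t2, d]

end FINEB

open FINEB KA in
theorem st_FINE (hP : St_PROP) : St_FINE := by
  intro n k j N M G φ μ V ρ Φ δ c O H₀ ψ δ' c₁ hE hN y hy H hH
  have hd := hE.tv.d0
  have hc : Continuous fun ζ => ρ ζ y - mu0 Φ 0 ⬝ᵥ ζ :=
    (continuousOn_univ.1 ((hE.fl.cvx y).continuousOn isOpen_univ)).sub
      (continuous_const.dotProduct continuous_id)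
  obtain ⟨ξ, -, hξ⟩ := (isCompact_closedBall (-r2 (fx (H 0 y))) δ).exists_isMinOn
    ⟨_, mem_closedBall_self hd.le⟩ hc.continuousOn
  have hm : ∀ ζ, ρ ξ y - mu0 Φ 0 ⬝ᵥ ξ ≤ ρ ζ y - mu0 Φ 0 ⬝ᵥ ζ := fun ζ => by
    by_cases hz : ζ ∈ closedBall (-r2 (fx (H 0 y))) δ
    · exact hξ hz
    · rw [mem_closedBall, dist_eq_norm, sub_neg_eq_add, add_comm, not_le] at hz
      exact (hξ (mem_closedBall_self hd.le)).trans (gap hd hE.ph (hH 0).1 (hH 0).2 hz.le).le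
  have hv : ∀ i, ‖pj (sh (H i y) ξ)‖ ≤ δ := fun i => by
    refine pj_le hd.le ?_ ?_
    · rw [r2_sh]
      by_contra hz
      exact (gap hd hE.ph (hH i).1 (hH i).2 (not_le.1 hz).le).not_ge (hm _)
    · rw [sx_sh]
      linarith [(hH i).2, hE.ph.d1]
  have hA := fun i => hE.ph.up (H i) y ξ (hH i).1 (by linarith [hv i])
  have he := Mf.ch_mem y
  have hx := Mf.mem_ch y
  obtain ⟨i, i', hi, a, t⟩ := hN n (M.ch y y) (fun i => (fun x => sh (H i x) ξ) ∘ (M.ch y).symm)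
    (fun i => at_ch (hA i).iso.1)
    (fun i => by simpa only [Function.comp, Mf.ch_symm] using hv i)
    (fun i => by
      have := at_ch (((hP n k j M G φ μ V ρ Φ δ c O H₀ ψ δ' c₁ hE).2 _ _ (hH i).1).2.2.1 hy)
      have e : (fun x => sh (H i x) ξ) ∘ (M.ch y).symm =
        fun w => (H i ∘ (M.ch y).symm) w + io j ((1 / 2 : ℝ) • ξ) := rfl
      rwa [e, fderiv_add_const]) fun i i' => by
      filter_upwards [at_ev (hA i).iso.2 he hx, at_ev (hA i').iso.2 he hx,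
        (ev_iff hx).1 (mom hE.tv (hA i) (hA i'))] with w h1 h2 h3
      exact ⟨h1.trans h2.symm, h3⟩
  refine ⟨i, i', hi, a, (ev_iff hx).2 (t.mono fun w hw => ?_)⟩
  have : H i' ((M.ch y).symm w) + io j ((1 / 2 : ℝ) • ξ) =
    H i ((M.ch y).symm w) + io j ((1 / 2 : ℝ) • ξ) + I • io j a := hw
  rw [add_right_comm] at this
  exact add_right_cancel this

end Pool.Agent.Lib.RAE
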