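import Pool.Agent.Lib.RAE.Blue
import Pool.Agent.Lib.RA.B_TV
import Pool.Agent.Lib.RA.B_LEV
import Pool.Agent.Lib.RA.B_CH2

/-! Project ra1, step E: the lower bound for the Hessian of the regularised minimum. -/

open scoped Classical Topology ContDiff ComplexOrder Matrix
open Set MeasureTheory Complex Metric Filter

set_option linter.unusedVariables false

noncomputable section

namespace Pool.Agent.Lib.RAE

open Pool.Agent.Lib.SV (E nsq)
open Pool.Agent.Lib.HS32 Pool.Agent.Lib.PN Pool.Agent.Lib.RA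

namespace LOWB

open TVB

variable {n k j : ℕ}

theorem nq_diag (d : Fin n → ℝ) (u : E n) :
    nq (Matrix.diagonal fun i => (d i : ℂ)) u = ∑ i, d i * normSq (u i) := by
  simp only [nq, dotProduct, Matrix.mulVec_diagonal, re_sum, Pi.star_apply]
  refine Finset.sum_congr rfl fun i _ => ?_
  rw [mul_left_comm, re_ofReal_mul, star_def, ← normSq_eq_conj_mul_self, ofReal_re]

theorem ps_eq : ps k j = Matrix.diagonal fun i => ((if i.val < k then 0 else 1 : ℝ) : ℂ) := by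
  unfold ps
  congr 1
  funext i
  split_ifs <;> simp

theorem nq_cm (s : ℝ) (A : Mat n) (v : E n) : nq ((s : ℂ) • A) v = s * nq A v := by
  simp only [nq, Matrix.smul_mulVec, dotProduct_smul, smul_eq_mul, re_ofReal_mul]

theorem nq_rect {r : ℕ} (A : Matrix (Fin r) (Fin n) ℂ) (P : Mat r) (v : E n) :
    nq (Aᴴ * P * A) v = nq P (A *ᵥ v) := by
  simp only [nq, Matrix.star_mulVec, ← Matrix.mulVec_mulVec, Matrix.dotProduct_mulVec,
    Matrix.vecMul_vecMul]

theorem ps_le (u : E (k + j)) (ζ : E k) : nq (ps k j) u ≤ nq 1 (u + Fin.append ζ 0) := by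
  have e : (1 : Mat (k + j)) = Matrix.diagonal fun i => ((1 : ℝ) : ℂ) := by simp
  rw [ps_eq, e, nq_diag, nq_diag, Fin.sum_univ_add, Fin.sum_univ_add]
  refine add_le_add (Finset.sum_le_sum fun i _ => ?_) (Finset.sum_le_sum fun l _ => ?_)
  · simpa using normSq_nonneg _
  · simp

/-- The inclusion of the first coordinates. -/
def apC (k j : ℕ) : E k →L[ℂ] E (k + j) :=
  LinearMap.toContinuousLinearMap
    ⟨⟨fun ζ => Fin.append ζ 0, fun a b => ext2 (fun i => by simp) fun l => by simp⟩,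
      fun s a => ext2 (fun i => by simp) fun l => by simp⟩

theorem apC_apply (ζ : E k) : apC k j ζ = Fin.append ζ 0 := rfl

theorem sh_r2 (t : E (k + j)) (ξ : Fin k → ℝ) (ζ : E k) :
    sh t ξ + apC k j ζ = sh t (ξ + r2 ζ) + I • io j fun i => (ζ i).im := by
  rw [apC_apply]
  refine ext2 (fun i => ?_) fun l => by simp [sh]
  apply Complex.ext <;> simp [sh, r2]
  ring

theorem sh_neg (t : E (k + j)) :
    sh t (-r2 (fx t)) = Fin.append 0 (sx t) + I • io j fun i => (fx t i).im := by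
  refine ext2 (fun i => ?_) fun l => by simp [sh, sx]
  apply Complex.ext <;> simp [sh, r2, fx]

theorem sx_sh (t : E (k + j)) (ξ : Fin k → ℝ) : sx (sh t ξ) = sx t := by
  funext l
  simp [sh, sx]

theorem r2_sh (t : E (k + j)) (ξ : Fin k → ℝ) : r2 (fx (sh t ξ)) = r2 (fx t) + ξ := by
  funext i
  simp [sh, fx, r2]
  ring

theorem pj_lt {t : E (k + j)} {δ : ℝ} (hδ : 0 < δ) (h1 : ‖r2 (fx t)‖ < δ) (h2 : ‖sx t‖ < δ) :
    ‖pj t‖ < 2 * δ := by
  refine (pi_norm_lt_iff (by linarith)).2 fun i => Fin.addCases (fun i => ?_) (fun l => ?_) i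
  · have h3 := (norm_le_pi_norm (r2 (fx t)) i).trans_lt h1
    simp only [r2, fx, norm_mul, Real.norm_eq_abs, abs_two] at h3
    rw [pj_l, norm_real, Real.norm_eq_abs]
    linarith
  · have h3 : ‖t (Fin.natAdd k l)‖ < δ := (norm_le_pi_norm (sx t) l).trans_lt h2
    rw [pj_r]
    linarith

theorem dot_self_le {a : Fin k → ℝ} {L : ℝ} (h : ‖a‖ ≤ L) : a ⬝ᵥ a ≤ k * L ^ 2 := by
  calc a ⬝ᵥ a ≤ ∑ _i : Fin k, L ^ 2 := Finset.sum_le_sum fun i _ => by
        rw [← sq, ← sq_abs]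
        exact pow_le_pow_left₀ (abs_nonneg _) ((norm_le_pi_norm a i).trans h) 2
    _ = k * L ^ 2 := by simp

/-- The computation in a chart. -/
theorem chart {f : E k × E n → ℝ} {u : E n → ℝ} {ψ : E (k + j) → ℝ} {h : E n → E (k + j)}
    {z : E n} {ξ : Fin k → ℝ} {c : ℝ} (hc : 0 ≤ c) (hh : HolN h z) (hu : ContDiffAt ℝ ∞ u z)
    (h1 : ContDiffAt ℝ ∞ ψ (h z)) (h2 : ContDiffAt ℝ ∞ ψ (sh (h z) ξ))
    (h3 : hr (ψ ∘ h) z = hr u z) (h4 : (hr ψ (sh (h z) ξ) - (c : ℂ) • (1 : Mat (k + j))).PosSemidef)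
    (h5 : f =ᶠ[𝓝 (0, z)] fun w => (u w.2 - ψ (h w.2)) + ψ (sh (h w.2) ξ + apC k j w.1))
    (ζ : E k) (v : E n) : c * nq (ps k j) (fderiv ℂ h z v) ≤ lev f (0, z) (ζ, v) := by
  have hs : ∀ᶠ w : E k × E n in 𝓝 (0, z), DifferentiableAt ℂ (Prod.snd : E k × E n → E n) w :=
    .of_forall fun w => differentiableAt_snd
  have a1 : ContDiffAt ℝ ∞ (ψ ∘ h) z := h1.comp z (BCH2.cd hh)
  have a2 : ContDiffAt ℝ ∞ (fun w => u w - (ψ ∘ h) w) z := hu.sub a1
  let Ψ : E k × E n → E (k + j) := fun w => sh (h w.2) ξ + apC k j w.1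
  have b0 : Ψ (0, z) = sh (h z) ξ := by simp [Ψ]
  have b1 : ∀ w : E k × E n, DifferentiableAt ℂ h w.2 → HasFDerivAt Ψ
      ((fderiv ℂ h w.2).comp (ContinuousLinearMap.snd ℂ _ _) +
        (apC k j).comp (ContinuousLinearMap.fst ℂ _ _)) w := fun w hw =>
    ((hw.hasFDerivAt.comp w hasFDerivAt_snd).add_const _).add
      ((apC k j).hasFDerivAt.comp w hasFDerivAt_fst)
  have b2 : ∀ᶠ w : E k × E n in 𝓝 (0, z), DifferentiableAt ℂ Ψ w :=
    ((continuous_snd.tendsto ((0 : E k), z)).eventually hh).mono fun w hw => (b1 w hw).differentiableAt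
  have b3 : ContDiffAt ℝ ∞ ψ (Ψ (0, z)) := by rwa [b0]
  obtain ⟨c1, c2⟩ := (st_LEV.2 _ _ z a2).2.2.2 (E k × E n) Prod.snd (0, z) (ζ, v) hs rfl
  obtain ⟨c3, c4⟩ := (st_LEV.2 _ ψ _ b3).2.2.2 (E k × E n) Ψ (0, z) (ζ, v) b2 rfl
  have c5 := BLEV.lev_add c1 c3 (ζ, v)
  rw [BLEV.lev_congr h5]
  refine le_of_le_of_eq ?_ c5.symm
  rw [c2, c4, ((st_LEV.2 _ u z hu).1 _ _ a1).2, st_LEV.1 _ _ _ _ hu, st_LEV.1 _ _ _ _ a1, h3,
    sub_self, zero_add, st_LEV.1 _ _ _ _ b3, b0, (b1 (0, z) hh.self_of_nhds).fderiv]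
  have d1 := (Complex.nonneg_iff.1 (h4.dotProduct_mulVec_nonneg
    (fderiv ℂ h z v + Fin.append ζ 0))).1
  change 0 ≤ nq _ _ at d1
  rw [nq_sub, nq_cm] at d1
  have d2 := mul_le_mul_of_nonneg_left (ps_le (fderiv ℂ h z v) ζ) hc
  change _ ≤ nq _ (fderiv ℂ h z v + Fin.append ζ 0)
  linarith

end LOWB

open LOWB

theorem st_LOW : St_LOW := by
  intro n k j M G φ μ V ρ Φ δ c O H₀ ψ δ' c₁ hE L
  have hδ := hE.tv.d0
  have hc₁ := hE.ph.c0
  have hk : 0 < k * L ^ 2 + 1 := by positivity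
  refine ⟨c₁ * δ / (k * L ^ 2 + 1), by positivity, fun P ξ hP H y hH hL hs e he hy => ?_⟩
  have hε : 0 < c₁ * δ / (k * L ^ 2 + 1) := by positivity
  have hs' : ‖sx (H y)‖ < δ := by linarith [hE.ph.d1]
  have hf := hH.fam.self_of_nhds
  have h1 : ‖r2 (fx (sh (H y) (ξ y)))‖ < δ := by
    by_contra h2
    have h3 := hE.ph.coe _ (by rwa [sx_sh]) (not_lt.1 h2)
    have h4 := hP.le y (-r2 (fx (H y)))
    rw [hP.eq, hf, hf, sh_neg, hE.ph.inv, dotProduct_neg, neg_dotProduct_neg] at h4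
    rw [sx_sh, r2_sh, dotProduct_add] at h3
    rw [r2_sh] at h2
    have h5 := mul_le_mul_of_nonneg_left (not_lt.1 h2) hc₁.le
    have h6 := mul_le_mul_of_nonneg_left (dot_self_le hL) hε.le
    have h7 : 0 ≤ c₁ * δ / (k * L ^ 2 + 1) * (ξ y ⬝ᵥ ξ y) :=
      mul_nonneg hε.le (Finset.sum_nonneg fun i _ => mul_self_nonneg _)
    have h8 : c₁ * δ / (k * L ^ 2 + 1) * (k * L ^ 2 + 1) = c₁ * δ := div_mul_cancel₀ _ hk.ne'
    nlinarith
  have h2 : ‖pj (sh (H y) (ξ y))‖ < 2 * δ := pj_lt hδ h1 (by rwa [sx_sh])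
  have hz := e.map_source hy
  have hh : HolN (H ∘ e.symm) (e y) := hH.iso.1 e he hy
  have e0 : (H ∘ e.symm) (e y) = H y := congrArg H (e.left_inv hy)
  have hu := hE.su.wt.sm e he _ hz
  have h3 : hr ψ (sh (H y) (ξ y)) = Gm Φ (dg (pj (sh (H y) (ξ y)))) := by
    rw [← (TVB.part5 hE.tv h2).2.2.1]
    refine hess_congr ?_
    filter_upwards [(TVB.pjL k j).continuous.continuousAt.norm.eventually (gt_mem_nhds h2)]
      with w hw
    rw [hE.ph.eq w hw]
  have key := fun v ζ => chart (ξ := ξ y) hE.tv.c0.le hh hu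
    (f := fun w : E k × E n => φ e w.2 + ρ (ξ y + r2 w.1) (e.symm w.2))
    (by rw [e0]; exact (hE.ph.an _ hH.val).contDiffAt)
    (by rw [e0]; exact (hE.ph.an _ (by rw [sx_sh]; exact hH.val)).contDiffAt)
    (hH.iso.2.self_of_nhds e he hy)
    (by rw [e0, h3]; exact hE.tv.lo _ (mem_ball_zero_iff.2 h2))
    (by
      filter_upwards [continuousAt_snd.eventually ((e.tendsto_symm hy).eventually hH.fam)] with w hw
      rw [hw, sh_r2, hE.ph.inv]
      simp only [Function.comp]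
      ring) ζ v
  have hA : (M.hw φ e (e y) + M.hs P e (e y) - (c : ℂ) • pb M H (ps k j) e (e y)).IsHermitian := by
    refine ((hess_herm hu).add (hess_herm (hP.sm e he _ hz))).sub ?_
    have h4 : (ps k j).IsHermitian := by
      rw [ps_eq]
      exact Matrix.isHermitian_diagonal_of_self_adjoint _ (funext fun i => conj_ofReal _)
    have h5 := Matrix.isHermitian_conjTranspose_mul_mul (jr (H ∘ e.symm) (e y)) h4
    rw [Matrix.IsHermitian, Matrix.conjTranspose_smul, pb, h5, star_def, conj_ofReal]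
  refine Matrix.PosSemidef.of_dotProduct_mulVec_nonneg hA fun v =>
    Complex.nonneg_iff.2 ⟨?_, (hA.im_star_dotProduct_mulVec_self v).symm⟩
  obtain ⟨ζ, hζ⟩ := hP.lo y e he hy v
  change 0 ≤ nq _ v
  rw [nq_sub, nq_cm, pb, nq_rect, ← BCH2.fderiv_mulVec]
  linarith [key v ζ]

end Pool.Agent.Lib.RAE
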