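import Pool.Agent.Lib.RAE.Blue

/-! Project ra1, step E: calculus of the pairing. -/

open scoped Classical Topology ContDiff Matrix
open Set Complex Filter

noncomputable section

namespace Pool.Agent.Lib.RAE

open Pool.Agent.Lib.SV (E nsq)
open Pool.Agent.Lib.HS32 Pool.Agent.Lib.PN Pool.Agent.Lib.RA

namespace PAKB

variable {n : ℕ} {M : Mf n} {G A : M.Fam (Mat n)} {x : M.X}

theorem fd_re {w : E n → ℝ} {z : E n} {D : E n →L[ℝ] ℝ} (h : HasFDerivAt w D z) (v : E n) :
    fderiv ℝ (fun y => (w y : ℂ)) z v = D v :=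
  congrArg (fun L : E n →L[ℝ] ℂ => L v) (ofRealCLM.hasFDerivAt.comp z h).fderiv

/-- A linear relation between the differentials passes to the pairing. -/
theorem pa_lin {u w g h : M.X → ℝ} {a b : ℝ} {D D' : E n →L[ℝ] ℝ}
    (hw : HasFDerivAt (w ∘ (M.ch x).symm) D (M.ch x x))
    (hg : HasFDerivAt (g ∘ (M.ch x).symm) D' (M.ch x x))
    (hh : HasFDerivAt (h ∘ (M.ch x).symm) (a • D + b • D') (M.ch x x)) :
    pa M G A (M.ds u h) x = a * pa M G A (M.ds u w) x + b * pa M G A (M.ds u g) x := by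
  have e : M.ev (M.ds u h) x = (a : ℂ) • M.ev (M.ds u w) x + (b : ℂ) • M.ev (M.ds u g) x := by
    ext i j
    have h1 := fd_re hw
    have h2 := fd_re hg
    have h3 := fd_re hh
    simp only [Function.comp] at h1 h2 h3
    simp only [Mf.ev, Mf.ds, dd, Matrix.of_apply, Matrix.add_apply, Matrix.smul_apply, dz,
      smul_eq_mul]
    unfold Mf.lc
    rw [h1, h1, h2, h2, h3, h3]
    simp only [_root_.add_apply, _root_.smul_apply, smul_eq_mul]
    push_cast
    ring
  simp only [pa, e, Matrix.mul_add, Matrix.mul_smul, Matrix.trace_add, Matrix.trace_smul,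
    smul_eq_mul, add_div, mul_div_assoc, add_re, re_ofReal_mul]

end PAKB

theorem st_PAK : St_PAK := by
  intro n M G A x
  have hx := (M.ch x).left_inv (Mf.mem_ch x)
  have hd : ∀ {u : M.X → ℝ}, SmAt M u x → HasFDerivAt (u ∘ (M.ch x).symm)
      (fderiv ℝ (u ∘ (M.ch x).symm) (M.ch x x)) (M.ch x x) := fun h =>
    ((KA.at_ch h).differentiableAt (by simp)).hasFDerivAt
  refine ⟨fun S T s => ⟨?_, ?_, fun h => ?_, fun A' h => ?_⟩, fun u g w hu hg hw => ⟨?_, ?_⟩,
    fun u w θ hu hw hθ => ⟨?_, ?_⟩⟩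
  · simp [pa, Mf.ev, Matrix.mul_add, add_div]
  · simp [pa, Mf.ev, mul_div_assoc]
  · simp only [pa, Mf.ev, KA.at_ch h]
  · simp only [pa, Mf.ev, KA.at_ch h]
  · exact fun e he h => (hg e he h).mul (hw e he h)
  · refine PAKB.pa_lin (hd hw) (hd hg) ?_
    have := (hd hg).fun_mul (hd hw)
    simp only [Function.comp_apply, hx] at this
    exact this
  · exact fun e he h => ContDiffAt.comp (g := θ) (f := w ∘ e.symm) _
      (by simpa only [Function.comp, e.left_inv h] using hθ) (hw e he h)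
  · have h := PAKB.pa_lin (G := G) (A := A) (u := u) (h := fun y => θ (w y)) (a := deriv θ (w x))
      (b := 0) (hd hw) (hd hw) (by
        rw [zero_smul, add_zero]
        exact HasDerivAt.comp_hasFDerivAt_of_eq (f := w ∘ (M.ch x).symm) _
          (hθ.differentiableAt (by simp)).hasDerivAt (hd hw) (by simp only [Function.comp, hx]))
    simpa using h

end Pool.Agent.Lib.RAE
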