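import Pool.Agent.Lib.RAE.Blue
import Pool.Agent.Lib.RA.B_WAD
import Pool.Agent.Lib.RA.B_TV

/-! Project ra1, step E: admissible germs propagate. -/

open scoped Classical Topology ContDiff ComplexOrder Matrix
open Set Complex Metric Filter

set_option linter.unusedVariables false

noncomputable section

namespace Pool.Agent.Lib.RAE

open Pool.Agent.Lib.SV (E)
open Pool.Agent.Lib.HS32 Pool.Agent.Lib.RA

namespace PROPB

variable {n k j : ℕ}

theorem hess_clm (L : E n →L[ℝ] ℂ) (z : E n) : hess (fun w => L w) z = 0 := by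
  have e : ∀ l, dz l (fun w => L w) =
      fun _ => (L (Pi.single l 1) - I * L (Pi.single l I)) / 2 := fun l => funext fun w => by
    simp only [dz, show (fun w => L w) = L from rfl, L.fderiv]
  ext i l
  rw [hess_apply, e l]
  simp [dzb]

/-- The linear part of the potential. -/
def linL (j : ℕ) (b : Fin k → ℝ) : E (k + j) →L[ℝ] ℝ :=
  LinearMap.toContinuousLinearMap
    ⟨⟨fun t => b ⬝ᵥ r2 (fx t), fun s t => by
        simp [dotProduct, r2, fx, mul_add, Finset.sum_add_distrib]⟩,
      fun r t => by simp [dotProduct, r2, fx, Finset.mul_sum, mul_left_comm]⟩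

theorem uf_eq (ψ : E (k + j) → ℝ) (b : Fin k → ℝ) : uf ψ b = fun t => ψ t - linL j b t := rfl

theorem an_uf {ψ : E (k + j) → ℝ} {t : E (k + j)} (h : AnalyticAt ℝ ψ t) (b : Fin k → ℝ) :
    AnalyticAt ℝ (uf ψ b) t := h.sub ((linL j b).analyticAt t)

theorem hr_uf {ψ : E (k + j) → ℝ} {t : E (k + j)} (h : AnalyticAt ℝ ψ t) (b : Fin k → ℝ) :
    hr (uf ψ b) t = hr ψ t := by
  have a := hess_sub (cd_ofReal (KA.cd_of_an h))
    (cd_ofReal (KA.cd_of_an ((linL j b).analyticAt t)))
  have z : hess (fun w => ((linL j b w : ℝ) : ℂ)) t = 0 := hess_clm (ofRealCLM.comp (linL j b)) t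
  rw [z, sub_zero] at a
  simp only [← ofReal_sub] at a
  exact a

theorem sx_sh (t : E (k + j)) (a : Fin k → ℝ) : sx (sh t a) = sx t := by
  funext l
  simp [sx, sh]

theorem cont_sx : Continuous (sx : E (k + j) → E j) := continuous_pi fun l => continuous_apply _

end PROPB

open PROPB KA BWAD in
theorem st_PROP : St_PROP := by
  intro n k j M G φ μ V ρ Φ δ c O H₀ ψ δ' c₁ hE
  have han := hE.ph.an
  refine ⟨fun e he a R hs H hH hv z hz h z' hz' => ⟨?_, hv z' hz', ?_⟩,
    fun H x h => ⟨?_, fun H' q => ⟨⟨holAt_congr h.iso.1 q, ?_⟩, ?_, ?_⟩, fun hx => ?_, ?_⟩⟩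
  · exact iso_ball hE.su.wt he hs (fun w hw => hE.su.an e he w (hs hw)) hH
      (fun w hw => han _ (hv w hw)) hz h.iso hz'
  · have hol : ∀ w ∈ ball a R, AnalyticAt ℝ (H ∘ e.symm) w := fun w hw =>
      an_of_hol (holN_of_on isOpen_ball hH hw)
    have q := (ev_iff' (hs hz)).1 h.fam
    refine (ev_iff' (hs hz')).2 ?_
    filter_upwards [isOpen_ball.mem_nhds hz'] with w hw ζ
    refine eq_ball (g := fun w => ρ ζ (e.symm w))
      (g' := fun w => ψ (sh (H (e.symm w)) ζ) - ψ (H (e.symm w))) (fun u hu => ?_)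
      (fun u hu => ?_) hz (q.mono fun u hu => hu ζ) hw
    · exact (at_tgt he (hs hu) (hE.fl.ja ζ _)).comp_of_eq (f := fun z : E n => (ζ, z))
        (analyticAt_const.prod analyticAt_id) rfl
    · refine AnalyticAt.sub ?_ ((han _ (hv u hu)).comp_of_eq (hol u hu) rfl)
      exact (han (sh (H (e.symm u)) ζ) (by rw [sx_sh]; exact hv u hu)).comp_of_eq
        (f := fun w => sh (H (e.symm w)) ζ) ((hol u hu).add analyticAt_const) rfl
  · have v : ∀ᶠ y in 𝓝 x, ‖sx (H y)‖ < 2 * δ :=
      ((cont_sx.continuousAt.comp (holAt_cont h.iso.1)).norm).eventually_lt continuousAt_const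
        h.val
    filter_upwards [holAt_ev h.iso.1, h.iso.2.eventually_nhds, v, h.fam.eventually_nhds]
      with y h1 h2 h3 h4 using ⟨⟨h1, h2⟩, h3, h4⟩
  · filter_upwards [h.iso.2, q.eventually_nhds] with y h1 h2 e he hy
    exact (hs_congr (h2.mono fun y' hy' => by simp only [Function.comp, hy']) e he hy).trans
      (h1 e he hy)
  · rw [q.self_of_nhds]; exact h.val
  · filter_upwards [h.fam, q] with y h1 h2 ζ
    rw [h2]; exact h1 ζ
  · have b := (at_ch h.iso.2.self_of_nhds).symm.trans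
      (at_ch (hs_pull h.iso.1 (cd_of_an (han _ h.val))))
    refine subm_of h.iso.1 (Mf.ch_mem x) (Mf.mem_ch x) ((BCH2.surj_iff _ _).2 ?_)
    have r : (M.hw φ (M.ch x) (M.ch x x)).rank = k + j := hx
    rw [b] at r
    refine le_antisymm (Matrix.rank_le_height _) ?_
    exact r.ge.trans (Matrix.rank_mul_le_right _ _)
  · intro e he hx
    have a := han _ h.val
    have b := hs_pull h.iso.1 (cd_of_an (an_uf a (mu0 Φ 0))) e he hx
    rw [hr_uf a] at b
    exact b.trans ((hs_pull h.iso.1 (cd_of_an a) e he hx).symm.trans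
      (h.iso.2.self_of_nhds e he hx))

end Pool.Agent.Lib.RAE
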