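import Pool.Agent.Lib.RAE.Blue
import Pool.Agent.Lib.RA.B_PLQ
import Pool.Agent.Lib.RA.B_MER

/-! Project ra1, step E: the two assemblies. -/

open scoped Classical Topology ContDiff ComplexOrder Matrix
open Set MeasureTheory Complex Metric Filter

set_option linter.unusedVariables false

noncomputable section

namespace Pool.Agent.Lib.RAE

open Pool.Agent.Lib.SV (E nsq)
open Pool.Agent.Lib.HS32 Pool.Agent.Lib.PN Pool.Agent.Lib.RA

theorem cont_sx {k j : ℕ} : Continuous (sx : E (k + j) → E j) :=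
  continuous_pi fun l => continuous_apply _

theorem st_E (hL : St_LSYS) (hC : St_CAC) (hP : St_PLQ) : St_E := by
  intro q k j M _ ι _ f φ μ V ρ x₀ Φ δ c O H σ N ψ δ' c₁ i₀ ix e a R hf hS hq hfl hb hN hp he ha
  obtain ⟨V₀, hl⟩ := hL _ k j N M _ φ μ V ρ Φ δ c O H ψ δ' c₁ ⟨hS, hfl, hb.tv, hp⟩ hN
  have r0 := he.r0
  have d0 := hp.d0
  have hR : 0 < min (R / 2) (δ' / 2) := by positivity
  have hR' : min (R / 2) (δ' / 2) < R := (min_le_left _ _).trans_lt (by linarith)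
  have sa : sx a = 0 := by
    rw [(he.pt a (mem_ball_self r0)).2.2.2, ha, hb.zero]; rfl
  have hK : IsCompact (closedBall (0 : E (k + j)) (2 * δ) ∩ {t | ‖sx t‖ ≤ δ'}) :=
    (isCompact_closedBall _ _).inter_right (isClosed_le cont_sx.norm continuous_const)
  obtain ⟨Λ₀, hΛ⟩ := hK.bddAbove_image (f := uf ψ (mu0 Φ 0))
    fun t ht => (hl.sm t ht.2).continuousAt.continuousWithinAt
  have hs : closedBall a (min (R / 2) (δ' / 2)) ⊆ ball a R := closedBall_subset_ball hR'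
  refine ⟨_, ⟨hR, hR'.le⟩, hP q k j M ι f O H i₀ ix e a R _ (q * (N * V₀)) hf hS.kae hb.op
    (fun x hx => (hb.adm x hx).iso.1) he hR hR' ?_⟩
  intro κ _ g P d ε hg hd
  refine hC q k j N M _ _ _ _ δ' V₀ Λ₀ H _ κ g (fun b => vz f (P b) (d b) (ε b))
    (fun b => (d b : ℝ)) hS.kae ((mHES _ M).2.2.2.1 1 φ hS.wt).toForm hl ?_ ?_ ?_ fun b => ?_
  · exact ((isCompact_closedBall _ _).image_of_continuousOn
      (e.continuousOn_symm.mono (hs.trans he.sub))).isClosed.measurableSet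
  · rintro _ ⟨z, hz, rfl⟩
    obtain ⟨h1, -, -, h2⟩ := he.pt z (hs hz)
    refine ⟨hp.box _ h1, hΛ ⟨_, ⟨mem_closedBall_zero_iff.2 (hb.val _ h1).le, ?_⟩, rfl⟩⟩
    have h3 : ‖sx z - sx a‖ ≤ ‖z - a‖ :=
      (pi_norm_le_iff_of_nonneg (norm_nonneg _)).2 fun l => norm_le_pi_norm (z - a) _
    rw [sa, sub_zero] at h3
    have h4 := (mem_closedBall_iff_norm.1 hz).trans (min_le_right _ _)
    show ‖sx (H (e.symm z))‖ ≤ δ'
    rw [← h2]
    linarith
  · rw [sa] at hg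
    exact ⟨fun b => ⟨(hg.1 b).1, (hg.1 b).2.1,
      (hg.1 b).2.2.1.trans (ball_subset_ball (min_le_right _ _)), (hg.1 b).2.2.2⟩, hg.2⟩
  · obtain ⟨h1, -, h2, -⟩ := st_VZ _ M ι f (P b) (d b) (ε b) hf (hd b).1 (hd b).2.2
    exact ⟨Nat.cast_pos.2 (hd b).2.1, h1, h2⟩

theorem st_CRAM (hK : St_KK) (hB : St_BXS) (hV : St_VEC) (hD : St_DER) (hDK : St_DK)
    (hW : St_WDEP) (h1 : St_AL1) (h2 : St_AL2) (h3 : St_AL3) : St_CRAM := by
  intro q k j M _ ι _ f G φ μ x₀ Φ δ c O H σ i₀ ix e a R D hf hS hH hk hb he hd Do Dd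
  obtain ⟨K, _, _, rep, κ, hm⟩ := hK _ M
  have r0 := he.r0
  have ha := mem_ball_self (x := a) r0
  have ml : ∀ l, Mer M fun x => af f i₀ x l := M86.pm_mer hf (he.pt a ha).2.1
  have hg := hB q k j M ι f φ μ x₀ Φ δ c O H σ i₀ ix e a R hS.toPot hb he
  obtain ⟨k1, k2⟩ := hDK q j M K rep κ e a R hm he.mem r0 he.sub
  obtain ⟨Dr, hDr⟩ := k1 fun b g mg => by
    obtain ⟨g', m', e'⟩ := hD _ k q M φ μ _ (Pi.single b 1) hS.wt (fun i x => (hk.kp i x).1)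
      (fun b' => ml (ix b')) (hV _ k q _ M G φ μ _ _ hS hH hk (fun b' => ml (ix b'))
        ⟨e, he.mem, a, he.sub ha, by
          filter_upwards [isOpen_ball.mem_nhds ha] with w hw using ⟨_, hg w hw b⟩⟩) g mg
    refine ⟨g', m', fun z hz => ?_⟩
    filter_upwards [e' e he.mem z (he.sub hz), Gn_of_nhds (isOpen_ball.mem_nhds hz)] with w p hw
    exact p _ (hg w hw b)
  choose ζ hζ using fun l => hm.sur _ (ml l)
  obtain ⟨m, hA⟩ := hW q k j M ι f O H i₀ ix e a R K rep κ Dr ζ hf he hd hm hDr hζ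
  choose A A0 A1 A2 using hA
  have cW : Cothin M (⋂ p : ι × ((Fin q → Fin (m + 1)) × Fin (m + 1)),
      {x | HolAt M (rep (A p.1 p.2)) x}) := M86.cot_iInter fun p => M86.mer_reg (hm.mer _)
  have gD : ∀ᶠ y in Ff M.X, y ∈ D := mem_Ff.2 (by simpa [Do.interior_eq] using Dd)
  obtain ⟨a₂, ha₂⟩ := (Gn_freq (((gn_of_ff (he.sub ha) gD).and
    ((gn_ch' (he.sub ha)).1 (M86.cot_gn cW _))).and
      (Gn_of_nhds (isOpen_ball.mem_nhds ha)))).exists
  obtain ⟨R₂, r2, hR₂⟩ := Metric.eventually_nhds_iff_ball.1 ha₂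
  have s2 : ball a₂ R₂ ⊆ ball a R := fun z hz => (hR₂ z hz).2
  obtain ⟨c', hc', hP⟩ := h1 q m ι K κ Dr A (fx a₂) R₂ hDr.add hDr.mul hDr.cst A0 A1 r2
  choose P U V Q N P0 P1 P2 P3 using hP
  choose W p W0 p0 p1 p2 p3 p4 using fun l => h2 _ M K rep κ (P l) (U l) (V l) hm (P0 l) (P2 l)
  have m1 : (Fin.append c' (sx a₂) : E (q + j)) ∈ ball a₂ R₂ :=
    (PLQB.mem_ball_ap r2).2 ⟨hc', mem_ball_self r2⟩
  obtain ⟨R₁, r1, s1⟩ := Metric.isOpen_iff.1 isOpen_ball _ m1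
  refine ⟨_, R₁, ⋂ l, W l, p, fun l => (P l).natDegree, s1.trans s2, (hR₂ _ m1).1.1, r1,
    M86.cot_iInter W0, p0, p1, fun l i x hx => p2 l i x (mem_iInter.1 hx l),
    fun l x hx => p3 l x (mem_iInter.1 hx l), fun z hz hw l => ?_, fun z hz hw l i b => ?_⟩
  · rw [PLQB.fx_ap]
    refine h3 q j m M K rep κ e a₂ R₂ c' (A l) (fun b => ζ (ix b)) (ζ l)
      (fun w => af f i₀ (e.symm w) l) (P l) (Q l) (N l) (p l) hm he.mem (s2.trans he.sub) hc'
      (fun α w hw => ?_) (A2 l) (fun w hw => ?_) (fun w hw => ?_) (P3 l) (fun x => (p0 l x).2) (p4 l)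
      z (s1 hz) fun i => (p2 l i _ (mem_iInter.1 hw l)).cont
    · have u : HolAt M (rep (A l α)) (e.symm w) := mem_iInter.1 (hR₂ w hw).1.2 (l, α)
      exact ⟨u, fun b => k2 Dr hDr b _ (A1 l α b) _ EventuallyEq.rfl w (s2 hw) u⟩
    · have u := (M86.pm_hol hf (he.pt w (s2 hw)).2.1).cont.comp
        (e.continuousAt_symm (he.sub (s2 hw)))
      exact ((continuous_apply l).continuousAt.comp u).continuousWithinAt
    · have t := he.sub (s2 hw)
      filter_upwards [gn_of_ff t (hζ l), eventually_all.2 fun b => gn_of_ff t (hζ (ix b)),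
        Gn_of_nhds (isOpen_ball.mem_nhds (s2 hw))] with w' u1 u2 u3
      exact ⟨u1, fun b => (u2 b).trans ((he.pt w' u3).2.2.1 b).symm⟩
  · exact k2 Dr hDr b _ (P1 l i b) _ (p4 l i) z (s2 (s1 hz)) (p2 l i _ (mem_iInter.1 hw l))

end Pool.Agent.Lib.RAE
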