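import Pool.Agent.Lib.RAE.Blue
import Pool.Agent.Lib.RA.B_MER

/-! Project ra1, step E, row DK: the derivations of the field and their constants. -/

open scoped Classical Topology ContDiff ComplexOrder Matrix
open Set MeasureTheory Complex Metric Filter

set_option linter.unusedVariables false

noncomputable section

namespace Pool.Agent.Lib.RAE

open Pool.Agent.Lib.SV (E nsq)
open Pool.Agent.Lib.HS32 Pool.Agent.Lib.PN Pool.Agent.Lib.RA

namespace DKB

variable {q j : ℕ} {M : Mf (q + j)} {e : M.Ch} {z : E (q + j)} {f g : M.X → ℂ} {b : Fin q}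

/-- Generic equality passes to the derivatives in a chart. -/
theorem pd_congr (hz : z ∈ e.target) (h : ∀ᶠ y in Ff M.X, f y = g y) :
    ∀ᶠ w in Gn z, pd (f ∘ e.symm) b w = pd (g ∘ e.symm) b w := by
  filter_upwards [Gn_nhds (gn_of_ff hz h)] with w hw
  have h1 : f ∘ e.symm =ᶠ[𝓝 w] g ∘ e.symm := hw
  simp only [pd, h1.fderiv_eq]

/-- A meromorphic function is differentiable at generic points of a chart. -/
theorem diff_gn (he : e ∈ M.C) (hz : z ∈ e.target) (h : Mer M f) :
    ∀ᶠ w in Gn z, DifferentiableAt ℂ (f ∘ e.symm) w := by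
  filter_upwards [(gn_ch' hz).1 (M86.cot_gn (M86.mer_reg h) (e.symm z)),
    Gn_of_nhds (e.open_target.mem_nhds hz)] with w a c
  have h1 := a e he (e.map_target c)
  rw [e.right_inv c] at h1
  exact h1.self_of_nhds

theorem pd_add {u v : E (q + j) → ℂ} (hu : DifferentiableAt ℂ u z) (hv : DifferentiableAt ℂ v z) :
    pd (fun w => u w + v w) b z = pd u b z + pd v b z := by
  simp only [pd]
  rw [fderiv_fun_add hu hv, add_apply]

theorem pd_mul {u v : E (q + j) → ℂ} (hu : DifferentiableAt ℂ u z) (hv : DifferentiableAt ℂ v z) :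
    pd (fun w => u w * v w) b z = u z * pd v b z + pd u b z * v z := by
  simp only [pd]
  rw [fderiv_fun_mul hu hv, add_apply, smul_apply,
    smul_apply, smul_eq_mul, smul_eq_mul, mul_comm (v z)]

theorem pd_cont {u : E (q + j) → ℂ} (hu : HolN u z) : ContinuousAt (pd u b) z := by
  refine ((((mHOL _ u z).2.2 hu).2.1 (Fin.castAdd j b)).self_of_nhds.continuousAt).congr ?_
  filter_upwards [hu] with w hw
  exact (mHOL _ u w).2.1 hw _

end DKB

open DKB

theorem st_DK : St_DK := by
  intro q j M K _ rep κ e a R hF he hR hb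
  have ha : a ∈ ball a R := mem_ball_self hR
  have hat : a ∈ e.target := hb ha
  refine ⟨fun hD => ?_, fun D hD b α h0 g hg z hz hh => ?_⟩
  · have h1 : ∀ b α, ∃ β, ∀ z ∈ ball a R, ∀ᶠ w in Gn z,
        rep β (e.symm w) = pd (rep α ∘ e.symm) b w := fun b α => by
      obtain ⟨g', hm, hg'⟩ := hD b _ (hF.mer α)
      obtain ⟨β, hβ⟩ := hF.sur g' hm
      refine ⟨β, fun z hz => ?_⟩
      filter_upwards [hg' z hz, gn_of_ff (hb hz) hβ] with w h1 h2 using h2.trans h1
    choose D hD' using h1
    have inj : ∀ α β, (∀ᶠ w in Gn a, rep α (e.symm w) = rep β (e.symm w)) → α = β :=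
      fun α β h => hF.inj α β (e.symm a) ((gn_ch' (p := fun y => rep α y = rep β y) hat).2 h)
    refine ⟨D, fun b α β => inj _ _ ?_, fun b α β => inj _ _ ?_, fun b s => inj _ _ ?_, hD'⟩
    · filter_upwards [hD' b (α + β) a ha, hD' b α a ha, hD' b β a ha,
        gn_of_ff hat (hF.add (D b α) (D b β)), pd_congr (b := b) hat (hF.add α β),
        diff_gn he hat (hF.mer α), diff_gn he hat (hF.mer β)] with w h1 h2 h3 h4 h5 h6 h7
      rw [h1, h4, h2, h3, h5]
      exact pd_add h6 h7
    · filter_upwards [hD' b (α * β) a ha, hD' b α a ha, hD' b β a ha,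
        gn_of_ff hat (hF.add (α * D b β) (D b α * β)), gn_of_ff hat (hF.mul α (D b β)),
        gn_of_ff hat (hF.mul (D b α) β), pd_congr (b := b) hat (hF.mul α β),
        diff_gn he hat (hF.mer α), diff_gn he hat (hF.mer β)] with w h1 h2 h3 h4 h5 h6 h7 h8 h9
      rw [h1, h4, h5, h6, h2, h3, h7]
      exact pd_mul h8 h9
    · filter_upwards [hD' b (κ s) a ha, gn_of_ff hat (hF.cst 0),
        pd_congr (b := b) hat (hF.cst s)] with w h1 h2 h3
      rw [map_zero] at h2
      rw [h1, h2, h3]
      simp [pd, Function.comp_def]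
  · have hzt := hb hz
    have h1 := hh e he (e.map_target hzt)
    rw [e.right_inv hzt] at h1
    refine eq_of_Gn (g := fun _ => 0) (pd_cont h1) continuousAt_const ?_
    filter_upwards [hD.ch b α z hz, gn_of_ff hzt (hF.cst 0), pd_congr (b := b) hzt hg]
      with w h2 h3 h4
    rw [map_zero] at h3
    rw [h4, ← h2, h0, h3]

end Pool.Agent.Lib.RAE
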