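import Pool.Agent.Lib.RAE.Blue
import Pool.Agent.Lib.RA.B_DEP
import Pool.Agent.Lib.RA.T_PK

/-! Step E: dependence over the constants. -/

open scoped Classical Topology ContDiff ComplexOrder Matrix
open Set Complex Metric Filter

set_option linter.unusedVariables false

noncomputable section

namespace Pool.Agent.Lib.RAE

open Pool.Agent.Lib.SV (E nsq)
open Pool.Agent.Lib.HS32 Pool.Agent.Lib.PN Pool.Agent.Lib.RA

namespace WDEPB

variable {q j : ℕ}

/-- Iterated derivatives. -/
def pw (l : List (Fin q)) (g : E (q + j) → ℂ) : E (q + j) → ℂ := l.foldr (fun b g => pd g b) g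

lemma pw_hn {g : E (q + j) → ℂ} {z : E (q + j)} (h : Hn g z) (l : List (Fin q)) :
    Hn (pw l g) z := by
  induction l with
  | nil => exact h
  | cons b l ih => exact PK.hn_fd ih _

lemma fx_app (y : E q) (s : E j) : fx (Fin.append y s : E (q + j)) = y :=
  funext fun i => Fin.append_left _ _ i

lemma app_eq (z : E (q + j)) : (Fin.append (fx z) (sx z) : E (q + j)) = z := by
  funext i
  refine Fin.addCases (fun a => ?_) (fun a => ?_) i
  · exact Fin.append_left _ _ a
  · exact Fin.append_right _ _ a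

lemma fx_mem {z a : E (q + j)} {R : ℝ} (h : z ∈ ball a R) : fx z ∈ ball (fx a) R := by
  have hR : 0 < R := pos_of_mem_ball h
  rw [mem_ball, dist_pi_lt_iff hR] at *
  exact fun i => h _

lemma sx_mem {z a : E (q + j)} {R : ℝ} (h : z ∈ ball a R) : sx z ∈ ball (sx a) R := by
  have hR : 0 < R := pos_of_mem_ball h
  rw [mem_ball, dist_pi_lt_iff hR] at *
  exact fun i => h _

lemma diff_app (y : E q) : Differentiable ℂ fun s : E j => (Fin.append y s : E (q + j)) := by
  refine differentiable_pi.2 fun i => ?_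
  refine Fin.addCases (fun a => ?_) (fun a => ?_) i
  · simpa only [Fin.append_left] using differentiable_const _
  · simpa only [Fin.append_right] using differentiable_apply a

lemma pd_plaque {G : E (q + j) → ℂ} {y : E q} {s : E j}
    (hG : DifferentiableAt ℂ G (Fin.append y s))
    (h0 : ∀ᶠ y' in 𝓝 y, G (Fin.append y' s) = 0) (b : Fin q) : pd G b (Fin.append y s) = 0 := by
  set v : E (q + j) := Pi.single (Fin.castAdd j b) 1 with hv
  have e : ∀ t : ℂ, (Fin.append y s : E (q + j)) + t • v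
      = Fin.append (y + t • (Pi.single b 1 : E q)) s := fun t => by
    funext i
    refine Fin.addCases (fun a => ?_) (fun a => ?_) i
    · simp [hv, Pi.single_apply]
    · have : Fin.natAdd q a ≠ Fin.castAdd j b := fun h => by
        have := congrArg Fin.val h
        simp only [Fin.val_natAdd, Fin.val_castAdd] at this
        omega
      simp [hv, this]
  have h1 : HasDerivAt (fun t : ℂ => (Fin.append y s : E (q + j)) + t • v) v 0 := by
    simpa using ((hasDerivAt_id (0 : ℂ)).smul_const v).const_add (Fin.append y s : E (q + j))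
  have h2 := HasFDerivAt.comp_hasDerivAt_of_eq (0 : ℂ) hG.hasFDerivAt h1 (by simp)
  have h3 : (G ∘ fun t : ℂ => (Fin.append y s : E (q + j)) + t • v) =ᶠ[𝓝 0] fun _ => 0 := by
    have c : Tendsto (fun t : ℂ => y + t • (Pi.single b 1 : E q)) (𝓝 0) (𝓝 y) := by
      have : Continuous fun t : ℂ => y + t • (Pi.single b 1 : E q) := by fun_prop
      simpa using this.tendsto 0
    filter_upwards [c.eventually h0] with t ht
    rw [Function.comp, e, ht]
  exact h2.unique ((hasDerivAt_const (0 : ℂ) (0 : ℂ)).congr_of_eventuallyEq h3)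

lemma det_zero {T : Type} [Fintype T] [DecidableEq T] {a : E (q + j)} {R : ℝ}
    {g : T → E (q + j) → ℂ} (hg : ∀ α, ∀ z ∈ ball a R, Hn (g α) z) {s : E j}
    (hs : s ∈ ball (sx a) R) {c : T → ℂ} (hc : c ≠ 0)
    (h0 : ∀ y ∈ ball (fx a) R, ∑ α, c α * g α (Fin.append y s) = 0) (w : T → List (Fin q)) :
    ∀ y ∈ ball (fx a) R, (Matrix.of fun i α => pw (w i) (g α) (Fin.append y s)).det = 0 := by
  have hR : 0 < R := pos_of_mem_ball hs
  have key : ∀ l : List (Fin q), ∀ y ∈ ball (fx a) R,
      ∑ α, c α * pw l (g α) (Fin.append y s) = 0 := by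
    intro l
    induction l with
    | nil => exact h0
    | cons b l ih =>
      intro y hy
      have hd : ∀ α, DifferentiableAt ℂ (pw l (g α)) (Fin.append y s) := fun α =>
        (pw_hn (hg α _ (BDEP.append_mem hR hy hs)) l).self_of_nhds
      have h1 := pd_plaque (G := fun z => ∑ α, c α * pw l (g α) z)
        (DifferentiableAt.fun_sum fun α _ => (hd α).const_mul _)
        ((isOpen_ball.eventually_mem hy).mono ih) b
      rw [pd, fderiv_fun_sum fun α _ => (hd α).const_mul _] at h1
      simp only [fun α => fderiv_const_mul (hd α) (c α), sum_apply, smul_apply,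
        smul_eq_mul] at h1
      exact h1
  intro y hy
  refine Matrix.exists_mulVec_eq_zero_iff.1 ⟨c, hc, funext fun i => ?_⟩
  rw [Pi.zero_apply, ← key (w i) y hy]
  exact Finset.sum_congr rfl fun α _ => mul_comm _ _

lemma hn_det {T : Type} [Fintype T] [DecidableEq T] {n : ℕ} {A : T → T → E n → ℂ} {z : E n}
    (h : ∀ i α, DifferentiableAt ℂ (A i α) z) :
    DifferentiableAt ℂ (fun w => (Matrix.of fun i α => A i α w).det) z := by
  simp only [Matrix.det_apply', Matrix.of_apply]
  exact DifferentiableAt.fun_sum fun σ _ =>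
    (HasFDerivAt.finsetProd fun i _ => (h _ _).hasFDerivAt).differentiableAt.const_mul _

end WDEPB

open WDEPB in
theorem st_WDEP : St_WDEP := by
  rintro q k j M _ ι _ f O H i₀ ix e a R K _ rep κ D ζ hf hb ⟨m, hm⟩ hK hD hζ
  refine ⟨m, fun l => ?_⟩
  set φ : (Fin q → Fin (m + 1)) × Fin (m + 1) → K :=
    fun α => (∏ b, ζ (ix b) ^ (α.1 b).val) * ζ l ^ α.2.val with hφ
  refine st_WRON K (Fin q) _ D hD.add hD.mul φ fun w => ?_
  set g : (Fin q → Fin (m + 1)) × Fin (m + 1) → E (q + j) → ℂ :=
    fun α z => (∏ b, fx z b ^ (α.1 b).val) * af f i₀ (e.symm z) l ^ α.2.val with hg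
  have hgh : ∀ α, ∀ z ∈ ball a R, Hn (g α) z := fun α z hz => by
    filter_upwards [BDEP.hol_af hf hb.mem (hb.sub hz) (hb.pt z hz).2.1 l] with w hw
    exact (HasFDerivAt.finsetProd fun b _ => ((differentiableAt_apply (𝕜 := ℂ) (Fin.castAdd j b)
      w).fun_pow (α.1 b).val).hasFDerivAt).differentiableAt.mul (hw.pow _)
  obtain ⟨r, hr⟩ := hK.hom
  have c1 : ∀ (u : List (Fin q)) α, ∀ z ∈ ball a R,
      ∀ᶠ w in Gn z, rep (wrd D u (φ α)) (e.symm w) = pw u (g α) w := by
    intro u α
    induction u with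
    | nil =>
      intro z hz
      have h1 : ((rep (φ α) : M.X → ℂ) : Germ (Ff M.X) ℂ) = Germ.coeRingHom _
          ((∏ b, (fun x => af f i₀ x (ix b)) ^ (α.1 b).val)
            * (fun x => af f i₀ x l) ^ α.2.val) := by
        have hz' : ∀ l, r (ζ l) = Germ.coeRingHom _ (fun x => af f i₀ x l) := fun l =>
          (hr _).trans (Germ.coe_eq.2 (hζ l))
        rw [← hr, hφ]
        simp only [map_mul, map_prod, map_pow, hz']
      filter_upwards [gn_of_ff (hb.sub hz) (Germ.coe_eq.1 h1),
        Gn_of_nhds (isOpen_ball.eventually_mem hz)] with w h2 h3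
      refine h2.trans ?_
      simp only [hg, pw, List.foldr_nil, Pi.mul_apply, Finset.prod_apply, Pi.pow_apply,
        (hb.pt w h3).2.2.1]
    | cons b u ih =>
      intro z hz
      filter_upwards [hD.ch b (wrd D u (φ α)) z hz, Gn_nhds (ih z hz)] with w h1 h2
      refine h1.trans ?_
      have h3 : (rep (wrd D u (φ α)) ∘ e.symm) =ᶠ[𝓝 w] pw u (g α) := h2
      show fderiv ℂ _ w _ = fderiv ℂ (pw u (g α)) w _
      rw [h3.fderiv_eq]
  have c2 : ∀ z ∈ ball a R, (Matrix.of fun i α => pw (w i) (g α) z).det = 0 := by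
    intro z hz
    by_contra hne
    obtain ⟨s, hs, h1, h2⟩ := hm
      (fun s => (Matrix.of fun i α => pw (w i) (g α) (Fin.append (fx z) s)).det)
      (fun s hs => (hn_det fun i α => (pw_hn (hgh α _ (BDEP.append_mem hb.r0 (fx_mem hz) hs))
        (w i)).self_of_nhds.comp s (diff_app _ s)).differentiableWithinAt)
      ⟨sx z, sx_mem hz, by rwa [app_eq]⟩
    obtain ⟨c, hc, h3⟩ := h2 l
    refine h1 (det_zero hgh hs hc (fun y hy => ?_) w _ (fx_mem hz))
    rw [← h3 y hy]
    exact Finset.sum_congr rfl fun α _ => by rw [hg]; simp only [fx_app, mul_assoc]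
  have ha : a ∈ ball a R := mem_ball_self hb.r0
  have h4 : ((rep (Matrix.of fun i α => wrd D (w i) (φ α)).det : M.X → ℂ) : Germ (Ff M.X) ℂ)
      = Germ.coeRingHom _ (Matrix.of fun i α => rep (wrd D (w i) (φ α))).det := by
    rw [← hr, RingHom.map_det, RingHom.map_det]
    congr 1
    ext i α
    exact hr _
  have h5 : ((rep 0 : M.X → ℂ) : Germ (Ff M.X) ℂ) = ((fun _ => 0 : M.X → ℂ) : Germ _ ℂ) := by
    rw [← hr, map_zero]; rfl
  refine hK.inj _ _ (e.symm a) ((gn_ch' (hb.sub ha)).2 ?_)
  filter_upwards [gn_of_ff (hb.sub ha) (Germ.coe_eq.1 h4), gn_of_ff (hb.sub ha) (Germ.coe_eq.1 h5),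
    eventually_all.2 fun i => eventually_all.2 fun α => c1 (w i) α a ha,
    Gn_of_nhds (isOpen_ball.eventually_mem ha)] with z h1 h2 h3 h6
  rw [h1, h2, ← c2 z h6]
  refine (RingHom.map_det (Pi.evalRingHom (fun _ : M.X => ℂ) (e.symm z)) _).trans ?_
  congr 1
  ext i α
  exact h3 i α

end Pool.Agent.Lib.RAE
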